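import Pool.Agent.H44.PT.Stm

/-!
# GLUE: `(C₂ ≀ H) × Y` in the form `IsProd` of the library
-/

set_option autoImplicit false

namespace Pool.Agent.H44.PT.GLUE

open Pool.Agent.W5h46.MW (PW Hyp IsProd IsC2W prodQuot relIndex_prod)

/-- the points as cosets of a point stabilizer -/
theorem exists_equiv {m : ℕ} (H : Subgroup (Equiv.Perm (Fin m))) (b : Fin m)
    (hH : MulAction.IsPretransitive H (Fin m)) :
    ∃ e : (H ⧸ MulAction.stabilizer H b) ≃ Fin m,
      ∀ (h : H) (q : H ⧸ MulAction.stabilizer H b), e (h • q) = h.1 (e q) := by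
  refine ⟨Equiv.ofBijective (MulAction.ofQuotientStabilizer H b)
    ⟨MulAction.injective_ofQuotientStabilizer H b, ?_⟩, ?_⟩
  · intro i
    obtain ⟨g, hg⟩ := hH.exists_smul_eq b i
    exact ⟨(g : H ⧸ MulAction.stabilizer H b), by rw [MulAction.ofQuotientStabilizer_mk]; exact hg⟩
  · intro h q
    exact MulAction.ofQuotientStabilizer_smul H b h q

theorem core_eq {m : ℕ} (H : Subgroup (Equiv.Perm (Fin m))) (b : Fin m)
    (hH : MulAction.IsPretransitive H (Fin m)) :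
    (MulAction.stabilizer H b).normalCore = ⊥ := by
  rw [eq_bot_iff]
  intro x hx
  rw [Subgroup.mem_bot]
  apply Subtype.ext
  apply Equiv.ext
  intro i
  obtain ⟨g, hg⟩ := hH.exists_smul_eq i b
  have h1 : g * x * g⁻¹ ∈ MulAction.stabilizer H b := hx g
  rw [MulAction.mem_stabilizer_iff] at h1
  have h2 : g • (x • i) = g • i := by
    rw [hg]
    rw [mul_smul, mul_smul] at h1
    rw [← hg, inv_smul_smul] at h1
    rw [h1]
    exact hg
  have h3 := smul_left_cancel g h2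
  exact h3

theorem index_eq {m : ℕ} (H : Subgroup (Equiv.Perm (Fin m))) (b : Fin m)
    (hH : MulAction.IsPretransitive H (Fin m)) :
    (MulAction.stabilizer H b).index = m := by
  obtain ⟨e, -⟩ := exists_equiv H b hH
  rw [Subgroup.index, Nat.card_congr e, Nat.card_eq_fintype_card, Fintype.card_fin]

theorem isProd_of {m k : ℕ} (H : Subgroup (Equiv.Perm (Fin m))) (Y : Subgroup (Equiv.Perm (Fin k)))
    (W₁ : Subgroup H) (W₂ : Subgroup Y) (e₁ : (H ⧸ W₁) ≃ Fin m)
    (he₁ : ∀ (h : H) (q : H ⧸ W₁), e₁ (h • q) = h.1 (e₁ q)) (e₂ : (Y ⧸ W₂) ≃ Fin k)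
    (he₂ : ∀ (y : Y) (q : Y ⧸ W₂), e₂ (y • q) = y.1 (e₂ q))
    (n₁ n : ℕ) (G₁ : Subgroup (Equiv.Perm (Fin n₁))) (G : Subgroup (Equiv.Perm (Fin n)))
    (h1 : IsC2Wr H G₁) (h2 : IsProduct G₁ Y G) : IsProd W₁ W₂ G := by
  obtain ⟨f₁, hf₁⟩ := h1
  obtain ⟨f, hf⟩ := h2
  let F : Fin n ≃ ((H ⧸ W₁) × Bool) × (Y ⧸ W₂) :=
    f.trans (Equiv.prodCongr (f₁.trans (Equiv.prodCongr e₁.symm (Equiv.refl Bool))) e₂.symm)
  have hF : ∀ q b z, F.symm ((q, b), z) = f.symm (f₁.symm (e₁ q, b), e₂ z) := by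
    intro q b z
    rfl
  refine ⟨F, fun π => ?_⟩
  rw [hf π]
  constructor
  · rintro ⟨g₁, hg₁, g₂, hg₂, hπ⟩
    obtain ⟨h, hh, hhg⟩ := (hf₁ g₁).1 hg₁
    have hinj : ∀ x : Fin m, Function.Injective
        (fun b : Bool => (f₁ (g₁ (f₁.symm (x, b)))).2) := by
      intro x b b' hb
      have h3 : f₁ (g₁ (f₁.symm (x, b))) = f₁ (g₁ (f₁.symm (x, b'))) := by
        apply Prod.ext
        · rw [hhg, hhg, Equiv.apply_symm_apply, Equiv.apply_symm_apply]
        · exact hb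
      have h4 := f₁.symm.injective (g₁.injective (f₁.injective h3))
      exact congrArg Prod.snd h4
    refine ⟨⟨h, hh⟩, fun q => Equiv.ofBijective _ (Finite.injective_iff_bijective.1 (hinj (e₁ q))),
      ⟨g₂, hg₂⟩, ?_⟩
    intro q b z
    apply f.injective
    rw [hπ, hF, hF, Equiv.apply_symm_apply, Equiv.apply_symm_apply]
    apply Prod.ext
    · simp only
      rw [Equiv.eq_symm_apply]
      apply Prod.ext
      · simp only
        rw [hhg, Equiv.apply_symm_apply, he₁]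
      · rfl
    · simp only
      rw [he₂]
  · rintro ⟨h, a, y, hh⟩
    have hinj : Function.Injective (fun i : Fin n₁ =>
        f₁.symm (h.1 (f₁ i).1, a (e₁.symm (f₁ i).1) (f₁ i).2)) := by
      intro i j hij
      have h3 := f₁.symm.injective hij
      rw [Prod.mk.injEq] at h3
      have h4 : (f₁ i).1 = (f₁ j).1 := h.1.injective h3.1
      have h5 := h3.2
      rw [h4] at h5
      exact f₁.injective (Prod.ext h4 ((a _).injective h5))
    refine ⟨Equiv.ofBijective _ (Finite.injective_iff_bijective.1 hinj), ?_, y.1, y.2, ?_⟩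
    · rw [hf₁]
      refine ⟨h.1, h.2, fun i => ?_⟩
      rw [Equiv.ofBijective_apply, Equiv.apply_symm_apply]
    · intro i
      obtain ⟨⟨⟨q, b⟩, z⟩, rfl⟩ := F.symm.surjective i
      rw [hh, hF, hF, Equiv.apply_symm_apply, Equiv.apply_symm_apply, Equiv.ofBijective_apply,
        Equiv.apply_symm_apply]
      simp only [Equiv.symm_apply_apply]
      rw [he₁, he₂]

theorem two_moved {m : ℕ} (h : Equiv.Perm (Fin m)) (hh : h ≠ 1) :
    ∃ i j : Fin m, i ≠ j ∧ h i ≠ i ∧ h j ≠ j := by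
  by_contra hcon
  push Not at hcon
  apply hh
  apply Equiv.ext
  intro i
  by_contra hi
  have h1 : h i ≠ i := hi
  exact h1 (h.injective (hcon i (h i) (Ne.symm h1) h1))

theorem moves_prod {m k : ℕ} (hm : 0 < m) (hk : 0 < k) (hkm : k < 2 * m)
    (h : Equiv.Perm (Fin m)) (y : Equiv.Perm (Fin k)) (hne : h ≠ 1 ∨ y ≠ 1) :
    k < Set.ncard {p : Fin m × Fin k | (h p.1, y p.2) ≠ p} := by
  rcases hne with hne | hne
  · obtain ⟨i, j, hij, hi, hj⟩ := two_moved h hne
    have h1 : (({i, j} : Finset (Fin m)) ×ˢ (Finset.univ : Finset (Fin k)) : Finset (Fin m × Fin k)).card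
        ≤ Set.ncard {p : Fin m × Fin k | (h p.1, y p.2) ≠ p} := by
      rw [← Set.ncard_coe_finset]
      apply Set.ncard_le_ncard _ (Set.toFinite _)
      rintro ⟨u, v⟩ huv
      rw [Finset.mem_coe, Finset.mem_product, Finset.mem_insert, Finset.mem_singleton] at huv
      intro heq
      have h2 : h u = u := congrArg Prod.fst heq
      rcases huv.1 with h3 | h3
      · simp only at h3
        rw [h3] at h2
        exact hi h2
      · simp only at h3
        rw [h3] at h2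
        exact hj h2
    rw [Finset.card_product, Finset.card_pair hij, Finset.card_univ, Fintype.card_fin] at h1
    omega
  · obtain ⟨i, j, hij, hi, hj⟩ := two_moved y hne
    have h1 : ((Finset.univ : Finset (Fin m)) ×ˢ ({i, j} : Finset (Fin k)) : Finset (Fin m × Fin k)).card
        ≤ Set.ncard {p : Fin m × Fin k | (h p.1, y p.2) ≠ p} := by
      rw [← Set.ncard_coe_finset]
      apply Set.ncard_le_ncard _ (Set.toFinite _)
      rintro ⟨u, v⟩ huv
      rw [Finset.mem_coe, Finset.mem_product, Finset.mem_insert, Finset.mem_singleton] at huv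
      intro heq
      have h2 : y v = v := congrArg Prod.snd heq
      rcases huv.2 with h3 | h3
      · simp only at h3
        rw [h3] at h2
        exact hi h2
      · simp only at h3
        rw [h3] at h2
        exact hj h2
    rw [Finset.card_product, Finset.card_pair hij, Finset.card_univ, Fintype.card_fin] at h1
    omega

theorem hyp_of {m k : ℕ} (hm : 0 < m) (hk : 0 < k) (hkm : k < 2 * m)
    (H : Subgroup (Equiv.Perm (Fin m))) (Y : Subgroup (Equiv.Perm (Fin k)))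
    (W₁ : Subgroup H) (W₂ : Subgroup Y) (e₁ : (H ⧸ W₁) ≃ Fin m)
    (he₁ : ∀ (h : H) (q : H ⧸ W₁), e₁ (h • q) = h.1 (e₁ q)) (e₂ : (Y ⧸ W₂) ≃ Fin k)
    (he₂ : ∀ (y : Y) (q : Y ⧸ W₂), e₂ (y • q) = y.1 (e₂ q)) :
    Hyp (W₁.prod (⊤ : Subgroup Y)) (W₁.prod W₂) := by
  refine ⟨Subgroup.prod_mono le_rfl le_top, ?_⟩
  rintro ⟨h, y⟩ hg
  have hidx : W₂.index = k := by
    rw [Subgroup.index, Nat.card_congr e₂, Nat.card_eq_fintype_card, Fintype.card_fin]
  rw [relIndex_prod, hidx]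
  let E : ((H × Y) ⧸ (W₁.prod W₂)) ≃ Fin m × Fin k :=
    (prodQuot W₁ W₂).trans (Equiv.prodCongr e₁ e₂)
  have hE : ∀ q : (H × Y) ⧸ (W₁.prod W₂), E ((h, y) • q) = (h.1 (E q).1, y.1 (E q).2) := by
    intro q
    obtain ⟨⟨x, z⟩, rfl⟩ := QuotientGroup.mk_surjective q
    have h1 : ((h, y) : H × Y) • (((x, z) : H × Y) : (H × Y) ⧸ (W₁.prod W₂)) =
        (((h * x, y * z) : H × Y) : (H × Y) ⧸ (W₁.prod W₂)) := rfl
    rw [h1]
    show (e₁ ((h * x : H) : H ⧸ W₁), e₂ ((y * z : Y) : Y ⧸ W₂)) =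
      (h.1 (e₁ (x : H ⧸ W₁)), y.1 (e₂ (z : Y ⧸ W₂)))
    rw [← he₁, ← he₂]
    rfl
  have hne : h.1 ≠ 1 ∨ y.1 ≠ 1 := by
    by_contra hcon
    push Not at hcon
    exact hg (Prod.ext (Subtype.ext hcon.1) (Subtype.ext hcon.2))
  have h1 := moves_prod hm hk hkm h.1 y.1 hne
  have h2 : {p : Fin m × Fin k | (h.1 p.1, y.1 p.2) ≠ p} =
      E '' {q : (H × Y) ⧸ (W₁.prod W₂) | ((h, y) : H × Y) • q ≠ q} := by
    ext p
    constructor
    · intro hp
      refine ⟨E.symm p, ?_, E.apply_symm_apply p⟩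
      intro heq
      apply hp
      have h3 := congrArg E heq
      rw [hE, E.apply_symm_apply] at h3
      exact h3
    · rintro ⟨q, hq, rfl⟩
      intro heq
      apply hq
      apply E.injective
      rw [hE]
      exact heq
  rw [h2, Set.ncard_image_of_injective _ E.injective] at h1
  exact h1

theorem main : S_GLUE := by
  intro m k H Y hm hk hH hY
  obtain ⟨e₁, he₁⟩ := exists_equiv H ⟨0, hm⟩ hH
  obtain ⟨e₂, he₂⟩ := exists_equiv Y ⟨0, hk⟩ hY
  refine ⟨MulAction.stabilizer H (⟨0, hm⟩ : Fin m), MulAction.stabilizer Y (⟨0, hk⟩ : Fin k),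
    core_eq H _ hH, core_eq Y _ hY, index_eq H _ hH, index_eq Y _ hY, ?_, ⟨e₁, he₁⟩, ?_⟩
  · intro n₁ n G₁ G h1 h2
    exact isProd_of H Y _ _ e₁ he₁ e₂ he₂ n₁ n G₁ G h1 h2
  · intro hkm
    exact hyp_of hm hk hkm H Y _ _ e₁ he₁ e₂ he₂

end Pool.Agent.H44.PT.GLUE
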