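import Pool.Agent.H44.PT.Main
import Pool.Agent.H44.PT.GLUE
import Pool.Agent.H44.MB.Sum3
import Pool.Agent.H44.MB.GoodA
import Pool.Graph.R_pool_sql_team_seeded_9f66d723.W5h93.MX.Real
import Pool.Graph.R_pool_sql_team_seeded_9f66d723.W5h46.MW.M

/-!
# The asymptotic formula for the products `(C₂ ≀ H) × Y`
-/

set_option autoImplicit false
set_option linter.unusedSectionVars false

open IntermediateField Filter Topology NumberField

namespace Pool.Agent.H44.PT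

open Pool.Agent.TH444.ML (dsc dsc_eq one_le_dsc Gal Cnt nf_of_fd)
open Pool.Agent.NH85.ML (GalX HasG img TTX Upper Good hasGp_of_equiv)
open Pool.Agent.H44.MB (BoundE fs_eq)
open Pool.Agent.W301.Lin (FS)
open Pool.Agent.W5h46.MW (PW Hyp IsProd IsC2W prodQuot relIndex_prod isC2W_of_prod index_W)

/-- the action of `Γ` on `P`, transported to `{1, ..., d}` -/
theorem ttx_act (K : Type) [Field K] [NumberField K] {Γ P : Type} [Group Γ] [MulAction Γ P]
    {d : ℕ} {G : Subgroup (Equiv.Perm (Fin d))}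
    (hG : ∃ f : Fin d ≃ P, ∀ π : Equiv.Perm (Fin d), π ∈ G ↔ ∃ γ : Γ, ∀ i, f (π i) = γ • f i)
    (Z : ℝ) : TTX K (AlgebraicClosure K) G Z = TTX K (AlgebraicClosure K) (img Γ P) Z := by
  obtain ⟨f, hf⟩ := hG
  have hiff : ∀ L : IntermediateField K (AlgebraicClosure K),
      HasG K (AlgebraicClosure K) G L ↔ HasG K (AlgebraicClosure K) (img Γ P) L := by
    intro L
    refine hasGp_of_equiv K f (img Γ P) (fun π => ?_) L
    rw [hf]
    constructor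
    · rintro ⟨γ, h1⟩
      refine ⟨γ, ?_⟩
      ext x
      rw [Equiv.permCongr_apply, h1, Equiv.apply_symm_apply]
      rfl
    · rintro ⟨γ, h1⟩
      refine ⟨γ, fun i => ?_⟩
      have h2 := congrArg (fun ρ : Equiv.Perm P => ρ (f i)) h1
      rw [Equiv.permCongr_apply, Equiv.symm_apply_apply] at h2
      exact h2.symm
  ext L
  constructor
  · rintro ⟨⟨h1, h2⟩, h3⟩
    exact ⟨⟨h1, (hiff L).1 h2⟩, h3⟩
  · rintro ⟨⟨h1, h2⟩, h3⟩
    exact ⟨⟨h1, (hiff L).2 h2⟩, h3⟩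

theorem ttx_sub (K : Type) [Field K] [NumberField K] {m : ℕ} (hm : 0 < m)
    (H : Subgroup (Equiv.Perm (Fin m))) (Z : ℝ) :
    TTX K (AlgebraicClosure K) H Z ⊆ FS K m Z := by
  rintro L ⟨⟨h1, e, he⟩, h3⟩
  rw [← fs_eq K hm]
  refine ⟨h1, ?_, h3⟩
  have hfd : FiniteDimensional K L := h1
  rw [← Nat.card_fin m, ← Nat.card_congr e, Nat.card_eq_fintype_card, AlgHom.card]

/-- the asymptotic formula for `(C₂ ≀ H) × Y` -/
theorem prod_asymp (hPR : S_PROD) (K : Type) [Field K] [NumberField K] {m k : ℕ} (hm : 0 < m)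
    (hk : 0 < k) (H : Subgroup (Equiv.Perm (Fin m))) (Y : Subgroup (Equiv.Perm (Fin k)))
    (htH : MulAction.IsPretransitive H (Fin m)) (htY : MulAction.IsPretransitive Y (Fin k))
    (hkm : k < 2 * m) {e : ℕ → ℝ} (he : BoundE e) {A : ℝ} (hA0 : 0 ≤ A)
    (hup : Upper K (AlgebraicClosure K) H A) (hexp : A / k + e k / m < 3 / (2 * (k : ℝ)))
    (hX : (Gal K (AlgebraicClosure K) (H × Y)).Nonempty) {n₁ n : ℕ}
    {G₁ : Subgroup (Equiv.Perm (Fin n₁))} {G : Subgroup (Equiv.Perm (Fin n))}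
    (hG₁ : IsC2Wr H G₁) (hG : IsProduct G₁ Y G) :
    ∃ c : ℝ, 0 < c ∧ Tendsto (fun B : ℝ =>
      (Nat.card (Quot (fun L L' : Cnt K G B => Nonempty (L.1 ≃ₐ[K] L'.1))) : ℝ) /
        B ^ (1 / (k : ℝ))) atTop (𝓝 c) := by
  obtain ⟨W₁, W₂, hc1, hc2, hi1, hi2, hprod, ⟨ε, hε⟩, hyp⟩ := GLUE.main m k H Y hm hk htH htY
  have hhyp := hyp hkm
  have hrel : (W₁.prod W₂).relIndex (W₁.prod (⊤ : Subgroup Y)) = k := by
    rw [relIndex_prod, hi2]
  obtain ⟨C₁, hC₁0, hC₁⟩ := hup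
  obtain ⟨C₂, hC₂⟩ := he.2 k hk K
  obtain ⟨C₃, hC₃⟩ := he.2 m hm K
  have hT : ∀ Z : ℝ, TTX K (AlgebraicClosure K) (img H (H ⧸ W₁)) Z =
      TTX K (AlgebraicClosure K) H Z := by
    intro Z
    symm
    refine ttx_act K ⟨ε.symm, fun π => ?_⟩ Z
    constructor
    · intro hπ
      refine ⟨⟨π, hπ⟩, fun i => ?_⟩
      rw [Equiv.symm_apply_eq, hε, Equiv.apply_symm_apply]
    · rintro ⟨γ, hγ⟩
      have h1 : π = γ.1 := by
        ext1 i
        have h2 := hγ i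
        rw [Equiv.symm_apply_eq, hε, Equiv.apply_symm_apply] at h2
        exact h2
      rw [h1]
      exact γ.2
  have hcount := hPR K H Y W₁ W₂ A (e k) C₁ C₂ hc1 hA0 (he.1 k)
    (fun Z hZ => by
      rw [hT]
      exact ⟨(hC₃ Z hZ).1.subset (ttx_sub K hm H Z), hC₁ Z hZ⟩)
    (fun Z hZ => by
      rw [hi2, fs_eq K hk]
      exact hC₂ Z hZ)
  have h := asympE K (H × Y) (W₁.prod (⊤ : Subgroup Y)) (W₁.prod W₂) hhyp hX
    (A / W₂.index + e k / W₁.index) (|C₁| * |C₂|) (by rw [hrel, hi1, hi2]; exact hexp) hcount G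
    (isC2W_of_prod (hprod n₁ n G₁ G hG₁ hG))
  rwa [hrel] at h

theorem ind_conv {n : ℕ} (π : Equiv.Perm (Fin n)) :
    (π.cycleType.map (fun l => l - 1)).sum = π.cycleType.sum - Multiset.card π.cycleType := by
  have h1 : (π.cycleType.map (fun l => (l - 1) + 1)).sum = π.cycleType.sum := by
    conv_rhs => rw [← Multiset.map_id' π.cycleType]
    congr 1
    refine Multiset.map_congr rfl fun l hl => ?_
    have := Equiv.Perm.two_le_of_mem_cycleType hl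
    omega
  rw [Multiset.sum_map_add, Multiset.map_const', Multiset.sum_replicate, smul_eq_mul,
    mul_one] at h1
  omega

/-- the constants -/
theorem prod_consts {m k : ℕ} (hm : 0 < m) (hk : 0 < k) (H : Subgroup (Equiv.Perm (Fin m)))
    (Y : Subgroup (Equiv.Perm (Fin k))) (htH : MulAction.IsPretransitive H (Fin m))
    (htY : MulAction.IsPretransitive Y (Fin k)) (hkm : k < 2 * m) {n₁ n : ℕ}
    {G₁ : Subgroup (Equiv.Perm (Fin n₁))} {G : Subgroup (Equiv.Perm (Fin n))}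
    (hG₁ : IsC2Wr H G₁) (hG : IsProduct G₁ Y G) :
    IsLeast {j : ℕ | ∃ g ∈ G, g ≠ 1 ∧ j = g.cycleType.sum - Multiset.card g.cycleType} k ∧
    ∀ g ∈ G, ∀ h ∈ G, g.cycleType.sum - Multiset.card g.cycleType = k →
      h.cycleType.sum - Multiset.card h.cycleType = k → ∃ x ∈ G, h = x * g * x⁻¹ := by
  obtain ⟨W₁, W₂, hc1, hc2, hi1, hi2, hprod, -, hyp⟩ := GLUE.main m k H Y hm hk htH htY
  have hrel : (W₁.prod W₂).relIndex (W₁.prod (⊤ : Subgroup Y)) = k := by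
    rw [relIndex_prod, hi2]
  have h := index_W (hyp hkm) (isC2W_of_prod (hprod n₁ n G₁ G hG₁ hG))
  simp only [ind_conv] at h
  rw [hrel] at h
  refine ⟨⟨?_, ?_⟩, h.2⟩
  · obtain ⟨g, hg, hg1, hg2⟩ := h.1.1
    exact ⟨g, hg, hg1, hg2.symm⟩
  · rintro j ⟨g, hg, hg1, rfl⟩
    exact h.1.2 ⟨g, hg, hg1, rfl⟩

/-- an extension with group `(C₂ ≀ H) × Y` gives one with group `H × Y` -/
theorem prod_down (K : Type) [Field K] [NumberField K] {m k : ℕ} (hm : 0 < m) (hk : 0 < k)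
    (H : Subgroup (Equiv.Perm (Fin m)))
    (Y : Subgroup (Equiv.Perm (Fin k))) (htH : MulAction.IsPretransitive H (Fin m))
    (htY : MulAction.IsPretransitive Y (Fin k)) (hkm : k < 2 * m) {n₁ n : ℕ}
    {G₁ : Subgroup (Equiv.Perm (Fin n₁))} {G : Subgroup (Equiv.Perm (Fin n))}
    (hG₁ : IsC2Wr H G₁) (hG : IsProduct G₁ Y G) {B : ℝ} (hne : (Cnt K G B).Nonempty) :
    (Gal K (AlgebraicClosure K) (H × Y)).Nonempty := by
  obtain ⟨W₁, W₂, hc1, hc2, hi1, hi2, hprod, -, hyp⟩ := GLUE.main m k H Y hm hk htH htY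
  obtain ⟨L, hL⟩ := hne
  obtain ⟨M, hM⟩ := gal_of_cntE K (H × Y) (W₁.prod (⊤ : Subgroup Y)) (W₁.prod W₂) (hyp hkm)
    (isC2W_of_prod (hprod n₁ n G₁ G hG₁ hG)) hL
  exact ⟨M, hM⟩

/-- SPL -/
def S_SPL : Prop :=
  ∀ (m n₁ : ℕ) (H : Subgroup (Equiv.Perm (Fin m))) (G₁ : Subgroup (Equiv.Perm (Fin n₁))),
    IsC2Wr H G₁ → ∃ (p : G₁ →* H) (s : H →* G₁), (∀ h, p (s h) = h) ∧
      ∀ x y : G₁, p x = 1 → p y = 1 → x * y = y * x

theorem real_step (hSP : S_SPL) (K : Type) [Field K] [NumberField K] {m n₁ : ℕ}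
    {H : Subgroup (Equiv.Perm (Fin m))} {G₁ : Subgroup (Equiv.Perm (Fin n₁))} (h : IsC2Wr H G₁)
    (Y : Type) [Group Y] [Finite Y] (hX : (Gal K (AlgebraicClosure K) (H × Y)).Nonempty) :
    (Gal K (AlgebraicClosure K) (G₁ × Y)).Nonempty := by
  obtain ⟨p, s, hps, hcomm⟩ := hSP m n₁ H G₁ h
  have hcls : Pool.Agent.TH444.TW.Cls K (p.prodMap (MonoidHom.id Y)) := by
    refine Pool.Agent.TH444.TW.Cls.abelian _ (s.prodMap (MonoidHom.id Y)) ?_ inferInstance ?_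
    · rintro ⟨g, y⟩
      exact Prod.ext (hps g) rfl
    · rintro ⟨x, y⟩ ⟨x', y'⟩ h1 h2
      have e1 : p x = 1 := congrArg Prod.fst h1
      have e2 : p x' = 1 := congrArg Prod.fst h2
      have e3 : y = 1 := congrArg Prod.snd h1
      have e4 : y' = 1 := congrArg Prod.snd h2
      rw [e3, e4]
      exact Prod.ext (hcomm x x' e1 e2) rfl
  obtain ⟨M, hM⟩ := hX
  exact Pool.Agent.W5h93.MX.gal_of_cls K _ hcls
    (Pool.Agent.W5h93.MX.isG_of_gal K (MonoidHom.id (H × Y)) Function.surjective_id hM)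

end Pool.Agent.H44.PT
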