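import Pool.Agent.H44.PT.Stm2

/-!
# BLK: block systems and subgroups (helper67)
-/

set_option autoImplicit false

namespace Pool.Agent.H44.PT.BLK

open Pool.Agent.W5h46.MW (IsC2W Hyp)

variable {m : ℕ} (H : Subgroup (Equiv.Perm (Fin m))) {D : Type} (δ : Fin m → D)

/-- the stabilizer of the block of `x₀` -/
def VV (hδ : ∀ h ∈ H, ∀ x y : Fin m, δ x = δ y → δ (h x) = δ (h y)) (x₀ : Fin m) : Subgroup H where
  carrier := {h | δ (h.1 x₀) = δ x₀}
  one_mem' := rfl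
  mul_mem' := by
    intro g h hg hh
    have h1 := hδ g.1 g.2 _ _ hh
    exact h1.trans hg
  inv_mem' := by
    intro h hh
    have h1 := hδ (h⁻¹).1 (h⁻¹).2 _ _ hh
    have h2 : (h⁻¹ : H).1 (h.1 x₀) = x₀ := Equiv.symm_apply_apply h.1 x₀
    rw [h2] at h1
    exact h1.symm

theorem mem_VV (hδ : ∀ h ∈ H, ∀ x y : Fin m, δ x = δ y → δ (h x) = δ (h y)) (x₀ : Fin m) (h : H) :
    h ∈ VV H δ hδ x₀ ↔ δ (h.1 x₀) = δ x₀ := Iff.rfl

/-- the points as cosets of a point stabilizer -/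
theorem exists_e (x₀ : Fin m) (hH : MulAction.IsPretransitive H (Fin m)) :
    ∃ e : (H ⧸ MulAction.stabilizer H x₀) ≃ Fin m,
      (∀ (h : H) (q : H ⧸ MulAction.stabilizer H x₀), e (h • q) = h.1 (e q)) ∧
      ∀ x : H, e (x : H ⧸ MulAction.stabilizer H x₀) = x.1 x₀ := by
  refine ⟨Equiv.ofBijective (MulAction.ofQuotientStabilizer H x₀)
    ⟨MulAction.injective_ofQuotientStabilizer H x₀, ?_⟩, ?_, ?_⟩
  · intro i
    obtain ⟨g, hg⟩ := hH.exists_smul_eq x₀ i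
    exact ⟨(g : H ⧸ MulAction.stabilizer H x₀), by rw [MulAction.ofQuotientStabilizer_mk]; exact hg⟩
  · intro h q
    exact MulAction.ofQuotientStabilizer_smul H x₀ h q
  · intro x
    exact MulAction.ofQuotientStabilizer_mk H x₀ x

theorem relIndex_eq (hδ : ∀ h ∈ H, ∀ x y : Fin m, δ x = δ y → δ (h x) = δ (h y)) (x₀ : Fin m)
    (hH : MulAction.IsPretransitive H (Fin m)) :
    (MulAction.stabilizer H x₀).relIndex (VV H δ hδ x₀) = {y : Fin m | δ y = δ x₀}.ncard := by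
  have h1 : (MulAction.stabilizer H x₀).subgroupOf (VV H δ hδ x₀) =
      MulAction.stabilizer (VV H δ hδ x₀) x₀ := by
    ext v
    rfl
  rw [Subgroup.relIndex, h1, MulAction.index_stabilizer]
  congr 1
  ext y
  constructor
  · rintro ⟨v, rfl⟩
    exact v.2
  · intro hy
    obtain ⟨g, hg⟩ := hH.exists_smul_eq x₀ y
    refine ⟨⟨g, ?_⟩, hg⟩
    show δ (g.1 x₀) = δ x₀
    have h2 : g.1 x₀ = y := hg
    rw [h2]
    exact hy

theorem hyp_of (r : ℕ) (hδ : ∀ h ∈ H, ∀ x y : Fin m, δ x = δ y → δ (h x) = δ (h y)) (x₀ : Fin m)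
    (hH : MulAction.IsPretransitive H (Fin m))
    (hr : ∀ x : Fin m, {y : Fin m | δ y = δ x}.ncard = r)
    (hmv : ∀ h ∈ H, h ≠ 1 → r < {x : Fin m | h x ≠ x}.ncard) :
    Hyp (VV H δ hδ x₀) (MulAction.stabilizer H x₀) := by
  obtain ⟨e, he, -⟩ := exists_e H x₀ hH
  constructor
  · intro h hh
    rw [mem_VV]
    have h1 : h.1 x₀ = x₀ := hh
    rw [h1]
  · intro g hg
    rw [relIndex_eq H δ hδ x₀ hH, hr]
    have h1 := hmv g.1 g.2 (fun h => hg (Subtype.ext h))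
    have h2 : {x : Fin m | g.1 x ≠ x} =
        e '' {q : H ⧸ MulAction.stabilizer H x₀ | g • q ≠ q} := by
      ext x
      constructor
      · intro hx
        refine ⟨e.symm x, ?_, e.apply_symm_apply x⟩
        intro heq
        apply hx
        have h3 := congrArg e heq
        rw [he, e.apply_symm_apply] at h3
        exact h3
      · rintro ⟨q, hq, rfl⟩
        intro heq
        apply hq
        apply e.injective
        rw [he]
        exact heq
    rw [h2, Set.ncard_image_of_injective _ e.injective] at h1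
    exact h1

/-- the block of a coset -/
def dbar (hδ : ∀ h ∈ H, ∀ x y : Fin m, δ x = δ y → δ (h x) = δ (h y)) (x₀ : Fin m) :
    H ⧸ VV H δ hδ x₀ → D :=
  Quotient.lift (fun h : H => δ (h.1 x₀)) (by
    intro a b hab
    have h1 : a⁻¹ * b ∈ VV H δ hδ x₀ := QuotientGroup.leftRel_apply.1 hab
    have h2 := hδ a.1 a.2 _ _ h1
    have h3 : a.1 ((a⁻¹ * b : H).1 x₀) = b.1 x₀ := by
      show a.1 (a.1⁻¹ (b.1 x₀)) = b.1 x₀
      exact Equiv.apply_symm_apply a.1 _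
    rw [h3] at h2
    exact h2.symm)

theorem dbar_mk (hδ : ∀ h ∈ H, ∀ x y : Fin m, δ x = δ y → δ (h x) = δ (h y)) (x₀ : Fin m) (h : H) :
    dbar H δ hδ x₀ (h : H ⧸ VV H δ hδ x₀) = δ (h.1 x₀) := rfl

theorem dbar_inj (hδ : ∀ h ∈ H, ∀ x y : Fin m, δ x = δ y → δ (h x) = δ (h y)) (x₀ : Fin m) :
    Function.Injective (dbar H δ hδ x₀) := by
  intro p q hpq
  obtain ⟨a, rfl⟩ := QuotientGroup.mk_surjective p
  obtain ⟨b, rfl⟩ := QuotientGroup.mk_surjective q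
  rw [dbar_mk, dbar_mk] at hpq
  rw [QuotientGroup.eq, mem_VV]
  have h1 := hδ (a⁻¹ : H).1 (a⁻¹ : H).2 _ _ hpq
  have h2 : (a⁻¹ : H).1 (a.1 x₀) = x₀ := Equiv.symm_apply_apply a.1 x₀
  rw [h2] at h1
  exact h1.symm

theorem isC2W_of {n : ℕ} (G : Subgroup (Equiv.Perm (Fin n)))
    (hδ : ∀ h ∈ H, ∀ x y : Fin m, δ x = δ y → δ (h x) = δ (h y)) (x₀ : Fin m)
    (hH : MulAction.IsPretransitive H (Fin m)) (f : Fin n ≃ Fin m × Bool)
    (hf : ∀ π : Equiv.Perm (Fin n), π ∈ G ↔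
      ∃ h ∈ H, ∃ a : D → Equiv.Perm Bool, ∀ i, f (π i) = (h (f i).1, a (δ (f i).1) (f i).2)) :
    IsC2W (VV H δ hδ x₀) (MulAction.stabilizer H x₀) G := by
  obtain ⟨e, he, he0⟩ := exists_e H x₀ hH
  refine ⟨f.trans (Equiv.prodCongr e.symm (Equiv.refl Bool)), fun π => ?_⟩
  have hF : ∀ i, (f.trans (Equiv.prodCongr e.symm (Equiv.refl Bool))) i =
      (e.symm (f i).1, (f i).2) := fun i => rfl
  rw [hf π]
  constructor
  · rintro ⟨h, hh, a, ha⟩
    refine ⟨⟨h, hh⟩, fun q => a (dbar H δ hδ x₀ q), fun i x hx => ?_⟩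
    rw [hF] at hx
    have h1 : (f i).1 = x.1 x₀ := by
      have h2 := congrArg e hx
      rw [he0] at h2
      simpa using h2
    rw [hF, hF, ha]
    apply Prod.ext
    · show e.symm (h (f i).1) = _
      rw [Equiv.symm_apply_eq, he0, h1]
      rfl
    · show a (δ (f i).1) (f i).2 = a (dbar H δ hδ x₀ (x : H ⧸ VV H δ hδ x₀)) (f i).2
      rw [dbar_mk, h1]
  · rintro ⟨h, a, ha⟩
    refine ⟨h.1, h.2, Function.extend (dbar H δ hδ x₀) a (fun _ => 1), fun i => ?_⟩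
    obtain ⟨x, hx⟩ := hH.exists_smul_eq x₀ (f i).1
    have h1 : (f i).1 = x.1 x₀ := hx.symm
    have h2 : ((f.trans (Equiv.prodCongr e.symm (Equiv.refl Bool))) i).1 =
        (x : H ⧸ MulAction.stabilizer H x₀) := by
      rw [hF]
      show e.symm (f i).1 = _
      rw [Equiv.symm_apply_eq, he0, h1]
    have h3 := ha i x h2
    rw [hF, hF, Prod.mk.injEq, Equiv.symm_apply_eq, he0] at h3
    apply Prod.ext
    · show (f (π i)).1 = h.1 (f i).1
      rw [h3.1, h1]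
      rfl
    · show (f (π i)).2 = _
      rw [h3.2]
      have h4 : Function.extend (dbar H δ hδ x₀) a (fun _ => 1) (δ (f i).1) =
          a (x : H ⧸ VV H δ hδ x₀) := by
        rw [h1, ← dbar_mk H δ hδ x₀ x]
        exact (dbar_inj H δ hδ x₀).extend_apply a _ _
      rw [h4]

theorem main : S_BLK := by
  intro r m n H G hm hH hG
  obtain ⟨D, δ, hδ, hr, hmv, f, hf⟩ := hG
  have x₀ : Fin m := ⟨0, hm⟩
  obtain ⟨e, he, -⟩ := exists_e H x₀ hH
  refine ⟨VV H δ hδ x₀, MulAction.stabilizer H x₀, ?_, hyp_of H δ r hδ x₀ hH hr hmv,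
    isC2W_of H δ G hδ x₀ hH f hf, e, he⟩
  rw [relIndex_eq H δ hδ x₀ hH, hr]

end Pool.Agent.H44.PT.BLK
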