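import Pool.Agent.H44.PT.Crit
import Pool.Agent.H44.MB.Exp
import Pool.Agent.H44.MB.ChnB

/-!
# The groups `C₂ ^ (X / V) ⋊ X` on `X / W × {0, 1}`: conditions in terms of subgroups
-/

set_option autoImplicit false
set_option linter.unusedSectionVars false

open IntermediateField Filter Topology NumberField

namespace Pool.Agent.H44.PT

open Pool.Agent.TH444.ML (dsc dsc_eq one_le_dsc Gal Cnt nf_of_fd)
open Pool.Agent.NH85.ML (GalX HasG img TTX Upper Good)
open Pool.Agent.W5h46.MW (PW Hyp IsProd IsC2W)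
open Pool.Agent.H44.MB (FewA good_few3 good_act exists_act' few_base3)

/-- `g ≠ 1` moves at least `2 [U : W]` points of `X / W`, if `W ≤ U` and `U` is core-free -/
theorem moved_two {X : Type} [Group X] [Finite X] (W U : Subgroup X)
    (hWU : W ≤ U) (hU : U.normalCore = ⊥) (g : X) (hg : g ≠ 1) :
    2 * W.relIndex U ≤ {q : X ⧸ W | g • q ≠ q}.ncard := by
  classical
  have h1 : ∃ x : X, x⁻¹ * g * x ∉ U := by
    by_contra hcon
    push Not at hcon
    apply hg
    have h2 : g ∈ U.normalCore := by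
      intro b
      have := hcon b⁻¹
      rwa [inv_inv] at this
    rw [hU] at h2
    exact Subgroup.mem_bot.1 h2
  obtain ⟨x, hx⟩ := h1
  let f : U ⧸ W.subgroupOf U → X ⧸ W := fun q => ((x * ((q.out : U) : X) : X) : X ⧸ W)
  have hf : Function.Injective f := by
    intro a b hab
    have h2 : (x * ((a.out : U) : X))⁻¹ * (x * ((b.out : U) : X)) ∈ W := QuotientGroup.eq.1 hab
    have h3 : (a.out : U)⁻¹ * (b.out : U) ∈ W.subgroupOf U := by
      rw [Subgroup.mem_subgroupOf]
      have h4 : (((a.out : U)⁻¹ * (b.out : U) : U) : X) =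
          (x * ((a.out : U) : X))⁻¹ * (x * ((b.out : U) : X)) := by
        push_cast
        group
      rw [h4]
      exact h2
    have h5 : ((a.out : U) : U ⧸ W.subgroupOf U) = ((b.out : U) : U ⧸ W.subgroupOf U) :=
      QuotientGroup.eq.2 h3
    rwa [QuotientGroup.out_eq', QuotientGroup.out_eq'] at h5
  have hmov : ∀ q, g • f q ≠ f q := by
    intro q hq
    apply hx
    have h4 : (((g * (x * ((q.out : U) : X)) : X)) : X ⧸ W) = ((x * ((q.out : U) : X) : X) : X ⧸ W) := hq
    have h5 : (x * ((q.out : U) : X))⁻¹ * (g * (x * ((q.out : U) : X))) ∈ W := by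
      rw [← QuotientGroup.eq]
      exact h4.symm
    have h6 := hWU h5
    have h7 : x⁻¹ * g * x = ((q.out : U) : X) *
        ((x * ((q.out : U) : X))⁻¹ * (g * (x * ((q.out : U) : X)))) * ((q.out : U) : X)⁻¹ := by
      group
    rw [h7]
    exact U.mul_mem (U.mul_mem (q.out : U).2 h6) (U.inv_mem (q.out : U).2)
  have hne : ∀ p q, f p ≠ g • f q := by
    intro p q hq
    apply hx
    have h4 : ((x * ((p.out : U) : X) : X) : X ⧸ W) = (((g * (x * ((q.out : U) : X)) : X)) : X ⧸ W) := hq
    have h5 : (x * ((p.out : U) : X))⁻¹ * (g * (x * ((q.out : U) : X))) ∈ W := QuotientGroup.eq.1 h4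
    have h6 := hWU h5
    have h7 : x⁻¹ * g * x = ((p.out : U) : X) *
        ((x * ((p.out : U) : X))⁻¹ * (g * (x * ((q.out : U) : X)))) * ((q.out : U) : X)⁻¹ := by
      group
    rw [h7]
    exact U.mul_mem (U.mul_mem (p.out : U).2 h6) (U.inv_mem (q.out : U).2)
  have hgf : Function.Injective (fun q => g • f q) := fun a b hab => hf (smul_left_cancel g hab)
  have h3 : W.relIndex U = (Set.range f).ncard := by
    rw [Set.ncard_range_of_injective hf]
    rfl
  have h4 : W.relIndex U = (Set.range (fun q => g • f q)).ncard := by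
    rw [Set.ncard_range_of_injective hgf]
    rfl
  have h5 : (Set.range f ∪ Set.range (fun q => g • f q)).ncard =
      (Set.range f).ncard + (Set.range (fun q => g • f q)).ncard := by
    refine Set.ncard_union_eq ?_ (Set.toFinite _) (Set.toFinite _)
    rw [Set.disjoint_left]
    rintro _ ⟨p, rfl⟩ ⟨q, hq⟩
    exact hne p q hq.symm
  rw [two_mul]
  nth_rewrite 1 [h3]
  rw [h4, ← h5]
  refine Set.ncard_le_ncard ?_ (Set.toFinite _)
  rintro _ (⟨p, rfl⟩ | ⟨q, rfl⟩)
  · exact hmov p
  · intro h6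
    exact hmov q (smul_left_cancel g h6)

/-- the condition on the moved points -/
theorem hyp_of_U {X : Type} [Group X] [Finite X] (V W U : Subgroup X) (hWV : W ≤ V)
    (hWU : W ≤ U) (hU : U.normalCore = ⊥) (hc : U.index * (U.index + 1) ≤ 3 * V.index) :
    Hyp V W := by
  refine ⟨hWV, fun g hg => ?_⟩
  refine lt_of_lt_of_le ?_ (moved_two W U hWU hU g hg)
  have h3 : W.relIndex V * V.index = W.index := Subgroup.relIndex_mul_index hWV
  have h4 : W.relIndex U * U.index = W.index := Subgroup.relIndex_mul_index hWU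
  have h5 : 0 < W.index := Nat.pos_of_ne_zero Subgroup.index_ne_zero_of_finite
  have hu : 0 < U.index := Nat.pos_of_ne_zero Subgroup.index_ne_zero_of_finite
  have hv : 0 < V.index := Nat.pos_of_ne_zero Subgroup.index_ne_zero_of_finite
  have hwu : 0 < W.relIndex U := by
    rcases Nat.eq_zero_or_pos (W.relIndex U) with h | h
    · rw [h, zero_mul] at h4
      omega
    · exact h
  by_contra hcon
  rw [not_lt] at hcon
  have h6 : W.relIndex U * (2 * V.index) ≤ W.relIndex U * U.index := by
    calc W.relIndex U * (2 * V.index) = (2 * W.relIndex U) * V.index := by ring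
      _ ≤ W.relIndex V * V.index := Nat.mul_le_mul_right _ hcon
      _ = W.relIndex U * U.index := by rw [h3, h4]
  have h7 : 2 * V.index ≤ U.index := Nat.le_of_mul_le_mul_left h6 hwu
  have h8 : 2 * (U.index * (U.index + 1)) ≤ 3 * U.index := by
    calc 2 * (U.index * (U.index + 1)) ≤ 2 * (3 * V.index) := Nat.mul_le_mul_left _ hc
      _ = 3 * (2 * V.index) := by ring
      _ ≤ 3 * U.index := Nat.mul_le_mul_left _ h7
  have h9 : U.index * 2 ≤ U.index * (U.index + 1) := Nat.mul_le_mul_left _ (by omega)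
  omega

/-- faithful action -/
theorem faithful_of_core {X : Type} [Group X] (W : Subgroup X) (hW : W.normalCore = ⊥) :
    FaithfulSMul X (X ⧸ W) := by
  refine ⟨fun {g g'} h => ?_⟩
  have h1 : g'⁻¹ * g ∈ W.normalCore := by
    rw [Subgroup.normalCore_eq_ker, MonoidHom.mem_ker]
    ext1 q
    change (g'⁻¹ * g) • q = q
    rw [mul_smul, h q, inv_smul_smul]
  rw [hW, Subgroup.mem_bot, inv_mul_eq_one] at h1
  exact h1.symm

/-- the asymptotic formula, if there are few extensions with the group `X` on `X / W` -/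
theorem few_crit (K : Type) [Field K] [NumberField K] (X : Type) [Group X] [Finite X]
    (V W : Subgroup X) (hyp : Hyp V W) {e : ℕ → ℝ} (he : Pool.Agent.H44.MB.BoundE e)
    (hfew : FewA e (3 / (2 * (W.relIndex V : ℝ))) X (X ⧸ W))
    (hX : (Gal K (AlgebraicClosure K) X).Nonempty) {n : ℕ}
    {G : Subgroup (Equiv.Perm (Fin n))} (hG : IsC2W V W G) :
    ∃ c : ℝ, 0 < c ∧ Tendsto (fun B : ℝ =>
      (Nat.card (Quot (fun L L' : Cnt K G B => Nonempty (L.1 ≃ₐ[K] L'.1))) : ℝ) /
        B ^ (1 / (W.relIndex V : ℝ))) atTop (𝓝 c) := by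
  have hf : FaithfulSMul X (X ⧸ W) := faithful_of_core W hyp.core
  obtain ⟨s, -, hs, hgood⟩ := good_few3 he K X (X ⧸ W) hfew hX
  obtain ⟨m, H, hH⟩ := exists_act' X (X ⧸ W)
  have hm : 0 < m := by
    obtain ⟨f, -⟩ := hH
    have h1 := Nat.card_congr f
    rw [Nat.card_fin] at h1
    rw [h1]
    exact Nat.card_pos
  exact crit_asymp K X V W hyp hm hH (good_act K hH hgood).upper hs he hX hG

/-- the condition for one subgroup -/
theorem few_of_U {e : ℕ → ℝ} (he0 : ∀ n, 0 ≤ e n) (he' : ∀ {n : ℕ}, 1 ≤ n → e n < (n + 1) / 2)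
    {X : Type} [Group X] [Finite X] (V W U : Subgroup X) (hWV : W ≤ V)
    (hWU : W ≤ U) (hU : U.normalCore = ⊥) (hc : U.index * (U.index + 1) ≤ 3 * V.index) :
    FewA e (3 / (2 * (W.relIndex V : ℝ))) X (X ⧸ W) := by
  have h3 : W.relIndex V * V.index = W.index := Subgroup.relIndex_mul_index hWV
  have h5 : 0 < W.index := Nat.pos_of_ne_zero Subgroup.index_ne_zero_of_finite
  have hu : 0 < U.index := Nat.pos_of_ne_zero Subgroup.index_ne_zero_of_finite
  have hr : 0 < W.relIndex V := by
    rcases Nat.eq_zero_or_pos (W.relIndex V) with h | h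
    · rw [h, zero_mul] at h3
      omega
    · exact h
  have hr' : (0 : ℝ) < W.relIndex V := by exact_mod_cast hr
  have hu' : (0 : ℝ) < U.index := by exact_mod_cast hu
  refine few_base3 _ U hU {((1 : X) : X ⧸ W)} (fun γ h => ?_) ⟨_, Finset.mem_singleton_self _⟩ ?_
  · have h1 := h _ (Finset.mem_singleton_self _)
    have h2 : γ ∈ MulAction.stabilizer X ((1 : X) : X ⧸ W) := h1
    rw [MulAction.stabilizer_quotient] at h2
    exact hWU h2
  · rw [Finset.card_singleton]
    have h6 : (Nat.card (X ⧸ W) : ℝ) = W.relIndex V * V.index := by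
      rw [show Nat.card (X ⧸ W) = W.index from rfl, ← h3]
      push_cast
      ring
    rw [h6]
    have h7 : 3 / (2 * (W.relIndex V : ℝ)) * (W.relIndex V * V.index) = 3 / 2 * V.index := by
      field_simp
    rw [h7]
    have h8 := mul_lt_mul_of_pos_right (he' hu) hu'
    have h9 : ((U.index * (U.index + 1) : ℕ) : ℝ) ≤ ((3 * V.index : ℕ) : ℝ) := by exact_mod_cast hc
    push_cast at h9 ⊢
    linarith

end Pool.Agent.H44.PT
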