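import Pool.Agent.H44.PT.GAL

/-!
# FIB: the pairs `(P, M)` with given `P`
(helper55, for helper44's project PT)
-/

set_option autoImplicit false

open NumberField IntermediateField

namespace Pool.Agent.H44.PT.FIB

open Pool.Agent.TH444.ML (dsc Gal)
open Pool.Agent.W5h46.MW (PW core_comap)
open Pool.Agent.W5h46.MR (fix_inj)
open Pool.Agent.H44.PT.GAL (galX_of_comap)

theorem main : S_FIB := by
  intro K _ _ X _ _ V W hWV hW
  have i2 : Normal K (AlgebraicClosure K) := IsAlgClosure.normal K (AlgebraicClosure K)
  have i3 : Algebra.IsAlgebraic K (AlgebraicClosure K) := IsAlgClosure.isAlgebraic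
  have i4 : Algebra.IsSeparable K (AlgebraicClosure K) := inferInstance
  have i5 : IsGalois K (AlgebraicClosure K) := ⟨⟩
  constructor
  · rintro P M ⟨hPfd, h, hs, hW', -⟩
    simp only at hPfd hW'
    exact galX_of_comap W P h hs hW'
  · intro P
    rcases Set.eq_empty_or_nonempty {M : IntermediateField K (AlgebraicClosure K) |
        (P, M) ∈ PW K (AlgebraicClosure K) V W} with he | ⟨M₀, hPfd, h₀, hs₀, hW₀, hV₀⟩
    · rw [he]
      exact ⟨Set.finite_empty, by simp⟩
    simp only at hPfd hW₀ hV₀
    have hinj : Set.InjOn (fun M : IntermediateField K (AlgebraicClosure K) =>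
        ((P.fixingSubgroup.map h₀, M.fixingSubgroup.map h₀) : Subgroup X × Subgroup X))
        {M | (P, M) ∈ PW K (AlgebraicClosure K) V W} := by
      have hcm : ∀ M ∈ {M : IntermediateField K (AlgebraicClosure K) |
          (P, M) ∈ PW K (AlgebraicClosure K) V W},
          (M.fixingSubgroup.map h₀).comap h₀ = M.fixingSubgroup := by
        rintro M ⟨-, h, hs, hW', hV'⟩
        simp only at hW' hV'
        have hker : h.ker = h₀.ker := by
          rw [← core_comap h hs W hW, ← core_comap h₀ hs₀ W hW, hW', hW₀]
        rw [Subgroup.comap_map_eq, ← hker]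
        apply sup_eq_left.2
        rw [← hV']
        intro σ hσ
        rw [MonoidHom.mem_ker] at hσ
        rw [Subgroup.mem_comap, hσ]
        exact one_mem _
      intro M hM M' hM' hMM
      have h2 : M.fixingSubgroup.map h₀ = M'.fixingSubgroup.map h₀ := congrArg Prod.snd hMM
      apply fix_inj
      rw [← hcm M hM, h2, hcm M' hM']
    have hfin : (Set.univ : Set (Subgroup X × Subgroup X)).Finite := Set.finite_univ
    refine ⟨Set.Finite.of_injOn (fun _ _ => Set.mem_univ _) hinj hfin, ?_⟩
    rw [← Set.ncard_univ]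
    exact Set.ncard_le_ncard_of_injOn _ (fun _ _ => Set.mem_univ _) hinj hfin

end Pool.Agent.H44.PT.FIB
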