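import Pool.Agent.H44.PT.GAL

/-!
# PROD: the pairs `(P, M)` for a direct product
(helper55, for helper44's project PT)
-/

set_option autoImplicit false

open NumberField IntermediateField

namespace Pool.Agent.H44.PT.PROD

open Pool.Agent.TH444.ML (dsc)
open Pool.Agent.W5h46.MW (PW)
open Pool.Agent.W5h46.MR (fix_inj le_of_fix exists_field)
open Pool.Agent.W5h46.ML (dsc_tower)
open Pool.Agent.NH85.ML (GalX img TTX)
open Pool.Agent.H44.PT.GAL (galX_of_comap)

theorem le_rpow_inv {d Z : ℝ} {n : ℕ} (hn : n ≠ 0) (hd : 0 ≤ d) (h : d ^ n ≤ Z) :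
    d ≤ Z ^ ((n : ℝ)⁻¹) := by
  rw [← Real.pow_rpow_inv_natCast hd hn]
  exact Real.rpow_le_rpow (pow_nonneg hd n) h (by positivity)

theorem dsc_nonneg {K Ω : Type} [Field K] [Field Ω] [Algebra K Ω]
    (L : IntermediateField K Ω) : 0 ≤ dsc L := by
  unfold dsc
  split_ifs with hn
  · exact_mod_cast abs_nonneg _
  · exact zero_le_one

theorem main : S_PROD := by
  intro K _ _ X₁ Y _ _ _ _ W₁ W₂ A₁ A₂ C₁ C₂ hW₁ hA₁ hA₂ hT₁ hT₂ Z hZ
  have i2 : Normal K (AlgebraicClosure K) := IsAlgClosure.normal K (AlgebraicClosure K)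
  have i3 : Algebra.IsAlgebraic K (AlgebraicClosure K) := IsAlgClosure.isAlgebraic
  have i4 : Algebra.IsSeparable K (AlgebraicClosure K) := inferInstance
  have i5 : IsGalois K (AlgebraicClosure K) := ⟨⟩
  have hi₁ : W₁.index ≠ 0 := Subgroup.index_ne_zero_of_finite
  have hi₂ : W₂.index ≠ 0 := Subgroup.index_ne_zero_of_finite
  set Z₁ : ℝ := Z ^ ((W₂.index : ℝ)⁻¹) with hZ₁
  set Z₂ : ℝ := Z ^ ((W₁.index : ℝ)⁻¹) with hZ₂
  have hZ₁1 : 1 ≤ Z₁ := Real.one_le_rpow hZ (by positivity)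
  have hZ₂1 : 1 ≤ Z₂ := Real.one_le_rpow hZ (by positivity)
  obtain ⟨hf₁, hc₁⟩ := hT₁ Z₁ hZ₁1
  obtain ⟨hf₂, hc₂⟩ := hT₂ Z₂ hZ₂1
  set T₁ := TTX K (AlgebraicClosure K) (img X₁ (X₁ ⧸ W₁)) Z₁ with hT₁def
  set T₂ := {M : IntermediateField K (AlgebraicClosure K) | FiniteDimensional K M ∧
        Module.finrank K M = W₂.index ∧ dsc M ≤ Z₂} with hT₂def
  have hsub : {p : IntermediateField K (AlgebraicClosure K) × IntermediateField K (AlgebraicClosure K) |
        p ∈ PW K (AlgebraicClosure K) (W₁.prod (⊤ : Subgroup Y)) (W₁.prod W₂) ∧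
          dsc p.1 ≤ Z} ⊆ (fun q : IntermediateField K (AlgebraicClosure K) ×
            IntermediateField K (AlgebraicClosure K) => (q.1 ⊔ q.2, q.1)) '' (T₁ ×ˢ T₂) := by
    rintro ⟨P, M⟩ ⟨⟨hPfd, h, hs, hP, hM⟩, hd⟩
    simp only at hPfd hP hM hd
    have hs₁ : Function.Surjective ((MonoidHom.fst X₁ Y).comp h) := by
      intro x
      obtain ⟨σ, hσ⟩ := hs (x, 1)
      exact ⟨σ, by rw [MonoidHom.comp_apply, hσ]; rfl⟩
    have hs₂ : Function.Surjective ((MonoidHom.snd X₁ Y).comp h) := by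
      intro y
      obtain ⟨σ, hσ⟩ := hs (1, y)
      exact ⟨σ, by rw [MonoidHom.comp_apply, hσ]; rfl⟩
    have hM' : W₁.comap ((MonoidHom.fst X₁ Y).comp h) = M.fixingSubgroup := by
      rw [← hM]
      ext σ
      simp [Subgroup.mem_prod]
    have hPle : P.fixingSubgroup ≤ M.fixingSubgroup := by
      rw [← hP, ← hM]
      exact Subgroup.comap_mono (Subgroup.prod_mono le_rfl le_top)
    have hPle₂ : P.fixingSubgroup ≤ W₂.comap ((MonoidHom.snd X₁ Y).comp h) := by
      rw [← hP]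
      intro σ hσ
      rw [Subgroup.mem_comap, Subgroup.mem_prod] at hσ
      exact hσ.2
    have hopen : IsOpen (P.fixingSubgroup : Set (AlgebraicClosure K ≃ₐ[K] AlgebraicClosure K)) :=
      P.fixingSubgroup_isOpen
    obtain ⟨M₂, hM₂, hM₂fd⟩ := exists_field (W₂.comap ((MonoidHom.snd X₁ Y).comp h))
      (Subgroup.isOpen_mono hPle₂ hopen)
    have hMP : M ≤ P := le_of_fix hPle
    have hM₂P : M₂ ≤ P := le_of_fix (by rw [hM₂]; exact hPle₂)
    have hMfd : FiniteDimensional K M :=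
      FiniteDimensional.of_injective (IntermediateField.inclusion hMP).toLinearMap
        (IntermediateField.inclusion hMP).injective
    have hMr : Module.finrank K M = W₁.index := by
      rw [IntermediateField.finrank_eq_fixingSubgroup_index, ← hM',
        Subgroup.index_comap_of_surjective _ hs₁]
    have hM₂r : Module.finrank K M₂ = W₂.index := by
      rw [IntermediateField.finrank_eq_fixingSubgroup_index, hM₂,
        Subgroup.index_comap_of_surjective _ hs₂]
    have hPr : Module.finrank K P = W₁.index * W₂.index := by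
      rw [IntermediateField.finrank_eq_fixingSubgroup_index, ← hP,
        Subgroup.index_comap_of_surjective _ hs, Subgroup.index_prod]
    have hd₁ : dsc M ^ W₂.index ≤ dsc P := dsc_tower M P hMP W₂.index (by rw [hPr, hMr])
    have hd₂ : dsc M₂ ^ W₁.index ≤ dsc P := dsc_tower M₂ P hM₂P W₁.index (by
      rw [hPr, hM₂r, mul_comm])
    refine ⟨(M, M₂), ⟨⟨galX_of_comap W₁ M _ hs₁ hM', ?_⟩, ⟨hM₂fd, hM₂r, ?_⟩⟩, ?_⟩
    · exact le_rpow_inv hi₂ (dsc_nonneg _) (hd₁.trans hd)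
    · exact le_rpow_inv hi₁ (dsc_nonneg _) (hd₂.trans hd)
    · simp only
      apply Prod.ext
      · apply fix_inj
        simp only
        rw [IntermediateField.fixingSubgroup_sup, hM₂, ← hM', ← hP]
        ext σ
        simp [Subgroup.mem_prod]
      · rfl
  have hfin : (T₁ ×ˢ T₂).Finite := hf₁.prod hf₂
  have hfinI := hfin.image (fun q : IntermediateField K (AlgebraicClosure K) ×
            IntermediateField K (AlgebraicClosure K) => (q.1 ⊔ q.2, q.1))
  refine ⟨hfinI.subset hsub, ?_⟩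
  have h1 := Set.ncard_le_ncard hsub hfinI
  have h2 := Set.ncard_image_le (f := fun q : IntermediateField K (AlgebraicClosure K) ×
            IntermediateField K (AlgebraicClosure K) => (q.1 ⊔ q.2, q.1)) hfin
  rw [Set.ncard_prod] at h2
  have h3 := h1.trans h2
  have hZ0 : 0 < Z := by linarith
  have hb₁ : (T₁.ncard : ℝ) ≤ |C₁| * Z₁ ^ A₁ :=
    hc₁.trans (mul_le_mul_of_nonneg_right (le_abs_self _) (Real.rpow_nonneg (by linarith) _))
  have hb₂ : (T₂.ncard : ℝ) ≤ |C₂| * Z₂ ^ A₂ :=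
    hc₂.trans (mul_le_mul_of_nonneg_right (le_abs_self _) (Real.rpow_nonneg (by linarith) _))
  refine le_trans (by exact_mod_cast h3 : _ ≤ (T₁.ncard : ℝ) * (T₂.ncard : ℝ)) ?_
  refine le_trans (mul_le_mul hb₁ hb₂ (Nat.cast_nonneg _)
    (mul_nonneg (abs_nonneg _) (Real.rpow_nonneg (by linarith) _))) (le_of_eq ?_)
  rw [hZ₁, hZ₂, ← Real.rpow_mul hZ0.le, ← Real.rpow_mul hZ0.le, Real.rpow_add hZ0]
  rw [div_eq_inv_mul, div_eq_inv_mul]
  ring

end Pool.Agent.H44.PT.PROD
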