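import Pool.Agent.H44.PT.Stm

/-!
# PT, module SPL (helper63): the wreath product `C₂ ≀ H` is a split extension of `H` with abelian kernel
-/

set_option autoImplicit false

namespace Pool.Agent.H44.PT.SPL

theorem main : ∀ (m n1 : ℕ) (H : Subgroup (Equiv.Perm (Fin m))) (G1 : Subgroup (Equiv.Perm (Fin n1))),
    IsC2Wr H G1 → ∃ (p : G1 →* H) (s : H →* G1), (∀ h, p (s h) = h) ∧
      (∀ x y : G1, p x = 1 → p y = 1 → x * y = y * x) := by
  rintro m n1 H G1 ⟨f, hf⟩
  choose P hP using fun g : G1 => (hf g.1).1 g.2
  have hval : ∀ (g : G1) (x : Fin m), P g x = (f (g.1 (f.symm (x, true)))).1 := by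
    intro g x
    rw [(hP g).2, Equiv.apply_symm_apply]
  let p : G1 →* H :=
    { toFun := fun g => ⟨P g, (hP g).1⟩
      map_one' := by
        apply Subtype.ext
        refine Equiv.ext fun x => ?_
        change P 1 x = x
        rw [hval]
        simp
      map_mul' := fun a b => by
        apply Subtype.ext
        refine Equiv.ext fun x => ?_
        change P (a * b) x = P a (P b x)
        rw [hval, hval b]
        exact (hP a).2 _ }
  let s0 : H → Equiv.Perm (Fin n1) := fun h =>
    (f.trans (Equiv.prodCongr h.1 (Equiv.refl Bool))).trans f.symm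
  have hs0 : ∀ h i, f (s0 h i) = (h.1 (f i).1, (f i).2) := by
    intro h i
    simp [s0, Equiv.prodCongr_apply, Prod.map]
  let s : H →* G1 :=
    { toFun := fun h => ⟨s0 h, (hf _).2 ⟨h.1, h.2, fun i => by rw [hs0]⟩⟩
      map_one' := by
        apply Subtype.ext
        refine Equiv.ext fun i => ?_
        apply f.injective
        change f (s0 1 i) = f i
        rw [hs0]
        rfl
      map_mul' := fun a b => by
        apply Subtype.ext
        refine Equiv.ext fun i => ?_
        apply f.injective
        change f (s0 (a * b) i) = f (s0 a (s0 b i))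
        rw [hs0, hs0, hs0]
        rfl }
  refine ⟨p, s, ?_, ?_⟩
  · intro h
    apply Subtype.ext
    refine Equiv.ext fun x => ?_
    change P (s h) x = h.1 x
    rw [hval]
    change (f (s0 h (f.symm (x, true)))).1 = h.1 x
    rw [hs0, Equiv.apply_symm_apply]
  · let o : Fin n1 → Fin n1 := fun i => f.symm ((f i).1, !(f i).2)
    have hfo : ∀ i, f (o i) = ((f i).1, !(f i).2) := fun i => by simp [o]
    have hoo : ∀ i, o (o i) = i := by
      intro i
      apply f.injective
      rw [hfo, hfo]
      simp
    have hoi : ∀ i, o i ≠ i := by
      intro i h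
      have := congrArg f h
      rw [hfo] at this
      have h2 := congrArg Prod.snd this
      simp at h2
    have hker : ∀ x : G1, p x = 1 → ∀ i, x.1 i = i ∨ x.1 i = o i := by
      intro x hx i
      have h1 : (f (x.1 i)).1 = (f i).1 := by
        have h0 : P x = 1 := congrArg Subtype.val hx
        have := (hP x).2 i
        rw [h0] at this
        exact this
      by_cases h2 : (f (x.1 i)).2 = (f i).2
      · left
        exact f.injective (Prod.ext h1 h2)
      · right
        apply f.injective
        rw [hfo]
        refine Prod.ext h1 ?_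
        revert h2
        cases (f (x.1 i)).2 <;> cases (f i).2 <;> simp
    have hcomm : ∀ x : G1, p x = 1 → ∀ i, x.1 (o i) = o (x.1 i) := by
      intro x hx i
      rcases hker x hx i with h | h <;> rcases hker x hx (o i) with h' | h'
      · rw [h, h']
      · rw [hoo] at h'
        exact absurd (x.1.injective (h'.trans h.symm)) (hoi i)
      · exact absurd (x.1.injective (h'.trans h.symm)) (hoi i)
      · rw [h, h']
    intro x y hx hy
    apply Subtype.ext
    refine Equiv.ext fun i => ?_
    change x.1 (y.1 i) = y.1 (x.1 i)
    rcases hker x hx i with h | h <;> rcases hker y hy i with h' | h'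
    · rw [h', h, h']
    · rw [h', h, hcomm x hx, h, h']
    · rw [h', h, hcomm y hy, h']
    · rw [h', h, hcomm x hx, hcomm y hy, h, h']

end Pool.Agent.H44.PT.SPL
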