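import Pool.Agent.H44.PT.Asm
import Pool.Agent.H44.PT.FIB
import Pool.Agent.H44.PT.PROD
import Pool.Agent.H44.PT.SPL

/-!
# The general criterion
-/

set_option autoImplicit false
set_option linter.unusedSectionVars false

open IntermediateField Filter Topology NumberField

namespace Pool.Agent.H44.PT

open Pool.Agent.TH444.ML (dsc dsc_eq one_le_dsc Gal Cnt nf_of_fd)
open Pool.Agent.NH85.ML (GalX HasG img TTX Upper Good)
open Pool.Agent.W301.Lin (FS)
open Pool.Agent.W5h46.MW (PW Hyp IsProd IsC2W prodQuot relIndex_prod isC2W_of_prod index_W)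

/-- the number of pairs from the number of fields -/
theorem count_pairs (K : Type) [Field K] [NumberField K] (X : Type) [Group X] [Finite X]
    (V W : Subgroup X) (hWV : W ≤ V) (hW : W.normalCore = ⊥) {A C Z : ℝ}
    (hfin : (TTX K (AlgebraicClosure K) (img X (X ⧸ W)) Z).Finite)
    (hC : ((TTX K (AlgebraicClosure K) (img X (X ⧸ W)) Z).ncard : ℝ) ≤ C * Z ^ A) :
    {p : IntermediateField K (AlgebraicClosure K) × IntermediateField K (AlgebraicClosure K) |
      p ∈ PW K (AlgebraicClosure K) V W ∧ dsc p.1 ≤ Z}.Finite ∧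
    ({p : IntermediateField K (AlgebraicClosure K) × IntermediateField K (AlgebraicClosure K) |
      p ∈ PW K (AlgebraicClosure K) V W ∧ dsc p.1 ≤ Z}.ncard : ℝ) ≤
        (Nat.card (Subgroup X × Subgroup X) * C) * Z ^ A := by
  classical
  obtain ⟨h1, h2⟩ := FIB.main K X V W hWV hW
  obtain ⟨S, hS⟩ : ∃ S, S = {p : IntermediateField K (AlgebraicClosure K) ×
      IntermediateField K (AlgebraicClosure K) |
      p ∈ PW K (AlgebraicClosure K) V W ∧ dsc p.1 ≤ Z} := ⟨_, rfl⟩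
  rw [← hS]
  have hmaps : ∀ p ∈ S, p.1 ∈ TTX K (AlgebraicClosure K) (img X (X ⧸ W)) Z := by
    rintro ⟨P, M⟩ hp
    rw [hS] at hp
    exact ⟨h1 P M hp.1, hp.2⟩
  have hSf : S.Finite := by
    have h3 : (⋃ P ∈ TTX K (AlgebraicClosure K) (img X (X ⧸ W)) Z,
        (fun M => (P, M)) '' {M : IntermediateField K (AlgebraicClosure K) |
          (P, M) ∈ PW K (AlgebraicClosure K) V W}).Finite :=
      hfin.biUnion fun P _ => (h2 P).1.image _
    refine h3.subset ?_
    rintro ⟨P, M⟩ hp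
    refine Set.mem_biUnion (hmaps _ hp) ⟨M, ?_, rfl⟩
    rw [hS] at hp
    exact hp.1
  refine ⟨hSf, ?_⟩
  have h4 : hSf.toFinset.card ≤ Nat.card (Subgroup X × Subgroup X) *
      (hSf.toFinset.image Prod.fst).card := by
    refine Finset.card_le_mul_card_image _ _ fun P _ => ?_
    refine le_trans ?_ (h2 P).2
    rw [← Set.ncard_coe_finset]
    refine Set.ncard_le_ncard_of_injOn Prod.snd ?_ ?_ (h2 P).1
    · intro p hp
      rw [Finset.mem_coe, Finset.mem_filter, Set.Finite.mem_toFinset, hS] at hp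
      obtain ⟨⟨h5, -⟩, h6⟩ := hp
      change (P, p.2) ∈ PW K (AlgebraicClosure K) V W
      rw [← h6]
      exact h5
    · intro p hp q hq hpq
      rw [Finset.mem_coe, Finset.mem_filter] at hp hq
      exact Prod.ext (hp.2.trans hq.2.symm) hpq
  have h5 : (hSf.toFinset.image Prod.fst).card ≤
      (TTX K (AlgebraicClosure K) (img X (X ⧸ W)) Z).ncard := by
    rw [← Set.ncard_coe_finset]
    refine Set.ncard_le_ncard ?_ hfin
    intro P hP
    rw [Finset.mem_coe, Finset.mem_image] at hP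
    obtain ⟨p, hp, rfl⟩ := hP
    exact hmaps p (hSf.mem_toFinset.1 hp)
  rw [Set.ncard_eq_toFinset_card _ hSf]
  calc (hSf.toFinset.card : ℝ) ≤ (Nat.card (Subgroup X × Subgroup X) : ℝ) *
        ((TTX K (AlgebraicClosure K) (img X (X ⧸ W)) Z).ncard : ℝ) := by
        exact_mod_cast h4.trans (Nat.mul_le_mul_left _ h5)
    _ ≤ (Nat.card (Subgroup X × Subgroup X) : ℝ) * (C * Z ^ A) :=
        mul_le_mul_of_nonneg_left hC (Nat.cast_nonneg _)
    _ = _ := by ring

/-- the general criterion -/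
theorem crit_asymp (K : Type) [Field K] [NumberField K] (X : Type) [Group X] [Finite X]
    (V W : Subgroup X) (hyp : Hyp V W) {m : ℕ} (hm : 0 < m) {H : Subgroup (Equiv.Perm (Fin m))}
    (hH : ∃ f : Fin m ≃ X ⧸ W, ∀ π : Equiv.Perm (Fin m), π ∈ H ↔ ∃ g : X, ∀ i, f (π i) = g • f i)
    {A : ℝ} (hup : Upper K (AlgebraicClosure K) H A) (hA : A < 3 / (2 * (W.relIndex V : ℝ)))
    {e : ℕ → ℝ} (he : Pool.Agent.H44.MB.BoundE e)
    (hX : (Gal K (AlgebraicClosure K) X).Nonempty) {n : ℕ}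
    {G : Subgroup (Equiv.Perm (Fin n))} (hG : IsC2W V W G) :
    ∃ c : ℝ, 0 < c ∧ Tendsto (fun B : ℝ =>
      (Nat.card (Quot (fun L L' : Cnt K G B => Nonempty (L.1 ≃ₐ[K] L'.1))) : ℝ) /
        B ^ (1 / (W.relIndex V : ℝ))) atTop (𝓝 c) := by
  obtain ⟨C, hC0, hC⟩ := hup
  obtain ⟨C₃, hC₃⟩ := he.2 m hm K
  refine asympE K X V W hyp hX A (Nat.card (Subgroup X × Subgroup X) * C) hA (fun Z hZ => ?_) G hG
  refine count_pairs K X V W hyp.le hyp.core ?_ ?_
  · rw [← ttx_act K hH]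
    exact (hC₃ Z hZ).1.subset (ttx_sub K hm H Z)
  · rw [← ttx_act K hH]
    exact hC Z hZ

end Pool.Agent.H44.PT
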