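import Pool.Agent.H44.PT.Stm2

/-!
# EXB: existence, degree and transitivity (helper17)
-/

set_option autoImplicit false

namespace Pool.Agent.H44.PT.EXB

open Pool.Agent.H44.PT

/-- a function on the points which is constant on the blocks comes from the set of the blocks -/
theorem descend {m : ℕ} {D : Type} (δ : Fin m → D) (F : Fin m → Equiv.Perm Bool)
    (h : ∀ x y, δ x = δ y → F x = F y) : ∃ a : D → Equiv.Perm Bool, ∀ x, a (δ x) = F x := by
  classical
  refine ⟨fun d => if hd : ∃ x, δ x = d then F hd.choose else 1, fun x => ?_⟩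
  have hx : ∃ y, δ y = δ x := ⟨x, rfl⟩
  show (if hd : ∃ y, δ y = δ x then F hd.choose else 1) = F x
  rw [dif_pos hx]
  exact h _ _ hx.choose_spec

/-- the permutations of a block step -/
theorem exists_group {m n : ℕ} (H : Subgroup (Equiv.Perm (Fin m))) (D : Type) (δ : Fin m → D)
    (hδ : ∀ h ∈ H, ∀ x y : Fin m, δ x = δ y → δ (h x) = δ (h y)) (f : Fin n ≃ Fin m × Bool) :
    ∃ G : Subgroup (Equiv.Perm (Fin n)), ∀ π : Equiv.Perm (Fin n), π ∈ G ↔
      ∃ h ∈ H, ∃ a : D → Equiv.Perm Bool, ∀ i, f (π i) = (h (f i).1, a (δ (f i).1) (f i).2) := by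
  refine ⟨{
    carrier := {π | ∃ h ∈ H, ∃ a : D → Equiv.Perm Bool, ∀ i,
      f (π i) = (h (f i).1, a (δ (f i).1) (f i).2)}
    one_mem' := ⟨1, H.one_mem, fun _ => 1, fun i => rfl⟩
    mul_mem' := ?_
    inv_mem' := ?_ }, fun π => Iff.rfl⟩
  · rintro π π' ⟨h, hh, a, ha⟩ ⟨h', hh', a', ha'⟩
    obtain ⟨b, hb⟩ := descend δ (fun x => a (δ (h' x)) * a' (δ x)) (fun x y hxy => by
      rw [hδ h' hh' x y hxy, hxy])
    refine ⟨h * h', H.mul_mem hh hh', b, fun i => ?_⟩
    rw [hb, Equiv.Perm.mul_apply, ha, ha']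
    rfl
  · rintro π ⟨h, hh, a, ha⟩
    obtain ⟨b, hb⟩ := descend δ (fun x => (a (δ (h⁻¹ x)))⁻¹) (fun x y hxy => by
      rw [hδ h⁻¹ (H.inv_mem hh) x y hxy])
    refine ⟨h⁻¹, H.inv_mem hh, b, fun i => ?_⟩
    rw [hb]
    obtain ⟨j, rfl⟩ : ∃ j, π j = i := π.surjective i
    have e1 : π⁻¹ (π j) = j := π.symm_apply_apply j
    have e2 : h⁻¹ (h (f j).1) = (f j).1 := h.symm_apply_apply _
    rw [e1, ha j]
    show f j = (h⁻¹ (h (f j).1), (a (δ (h⁻¹ (h (f j).1))))⁻¹ (a (δ (f j).1) (f j).2))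
    rw [e2]
    exact Prod.ext rfl ((a _).symm_apply_apply _).symm

theorem main : S_EXB := by
  refine ⟨fun m r H D δ h1 h2 h3 => ?_, fun r m n H G hG => ?_⟩
  · let f : Fin (m * 2) ≃ Fin m × Bool :=
      finProdFinEquiv.symm.trans (Equiv.prodCongr (Equiv.refl _) finTwoEquiv)
    obtain ⟨G, hG⟩ := exists_group H D δ h1 f
    exact ⟨m * 2, G, D, δ, h1, h2, h3, f, hG⟩
  · obtain ⟨D, δ, h1, h2, h3, f, hf⟩ := hG
    constructor
    · have h := Fintype.card_congr f
      rw [Fintype.card_prod, Fintype.card_fin, Fintype.card_fin, Fintype.card_bool] at h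
      omega
    · intro ht x y
      obtain ⟨h, hh, hxy⟩ := ht (f x).1 (f y).1
      refine ⟨f.trans ((Equiv.prodCongr h (Equiv.swap (f x).2 (f y).2)).trans f.symm), ?_, ?_⟩
      · rw [hf]
        refine ⟨h, hh, fun _ => Equiv.swap (f x).2 (f y).2, fun i => ?_⟩
        rw [Equiv.trans_apply, Equiv.trans_apply, Equiv.apply_symm_apply]
        rfl
      · rw [Equiv.trans_apply, Equiv.trans_apply]
        have : (Equiv.prodCongr h (Equiv.swap (f x).2 (f y).2)) (f x) = f y := by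
          refine Prod.ext hxy ?_
          exact Equiv.swap_apply_left _ _
        rw [this, Equiv.symm_apply_apply]

end Pool.Agent.H44.PT.EXB
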