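import Pool.Agent.H44.PT.Stm

/-!
# GAL: a field whose fixing subgroup is the preimage of `W` has the group `X` acting on `X / W`
(helper55, for helper44's project PT)
-/

set_option autoImplicit false

open NumberField IntermediateField

namespace Pool.Agent.H44.PT.GAL

open Pool.Agent.NH85.ML (GalX img TTX Upper)
open Pool.Agent.W5h46.MR (emb_equiv)
open Pool.Agent.TH365.J3099 (act act_apply)

/-- If `h : Gal(Ω/K) → X` is onto and `P` is the finite extension which corresponds to the preimage of
`W`, then `P/K` has the group `X`, acting on `X / W`. -/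
theorem galX_of_comap {K Ω : Type} [Field K] [CharZero K] [Field Ω] [Algebra K Ω] [IsAlgClosure K Ω]
    {X : Type} [Group X] [Finite X] (W : Subgroup X) (P : IntermediateField K Ω)
    [hP : FiniteDimensional K P] (h : (Ω ≃ₐ[K] Ω) →* X) (hs : Function.Surjective h)
    (hW : W.comap h = P.fixingSubgroup) : P ∈ GalX K Ω (img X (X ⧸ W)) := by
  have i2 : Normal K Ω := IsAlgClosure.normal K Ω
  have i3 : Algebra.IsAlgebraic K Ω := IsAlgClosure.isAlgebraic
  have i4 : Algebra.IsSeparable K Ω := inferInstance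
  have i5 : IsGalois K Ω := ⟨⟩
  obtain ⟨e, he, -⟩ := emb_equiv (A := X ⧸ W) P h hs ((1 : X) : X ⧸ W) (by
    rw [← hW, MulAction.stabilizer_quotient])
  refine ⟨hP, e, fun π => ?_⟩
  constructor
  · rintro ⟨x, rfl⟩
    obtain ⟨σ, rfl⟩ := hs x
    exact ⟨σ, fun φ => he σ φ⟩
  · rintro ⟨σ, hσ⟩
    refine ⟨h σ, ?_⟩
    ext q
    obtain ⟨φ, rfl⟩ := e.surjective q
    rw [← hσ]
    exact (he σ φ).symm

end Pool.Agent.H44.PT.GAL
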