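import Pool.Agent.H44.PT.Unif
import Pool.Graph.R_pool_sql_team_seeded_3dad9d7b.NH85.ML.WeakOut
import Pool.Graph.R_pool_sql_team_seeded_9f66d723.W5h46.MW.Done

/-!
# The asymptotic formula for `C₂ ^ (X / V) ⋊ X` on `X / W × {0, 1}` from an upper bound

The proofs follow `W5h46/MW/Main2.lean`, `W5h46/MW/Main3.lean` of the library, with better exponents.
-/

set_option autoImplicit false
set_option linter.unusedSectionVars false

open IntermediateField Filter Topology NumberField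

namespace Pool.Agent.H44.PT

open Pool.Agent.TH444.ML (KumP DiscQuad SplitSum QuadUnif dsc nf_of_fd dsc_eq one_le_dsc Gal Cnt)
open Pool.Agent.W5h46.MR (algR tow1 tow2 QR finrank_MN)
open Pool.Agent.W5h46.MW

theorem calc_boundE {r : ℕ} (hr : 0 < r) {C dM dN B D q θ ε : ℝ} (hC : 0 ≤ C) (hM : 1 ≤ dM)
    (hN : 1 ≤ dN) (hMN : dM ^ r ≤ dN) (hB : 0 < B) (hD : 0 < D) (hε : 0 < ε)
    (hθ : 2 * ε ≤ 3 / (2 * (r : ℝ)) - θ)
    (hq : q ≤ C * dM ^ (1 / 2 + ε) * dN ^ ε * (B * (D / dN ^ 2)) ^ (1 / (r : ℝ))) :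
    q ≤ C * D ^ (1 / (r : ℝ)) * B ^ (1 / (r : ℝ)) * dN ^ (-θ) := by
  have hr' : (0 : ℝ) < r := by exact_mod_cast hr
  have hr1 : (1 : ℝ) ≤ r := by exact_mod_cast hr
  have hM0 : 0 < dM := by linarith
  have hN0 : 0 < dN := by linarith
  have h1 : dM ≤ dN ^ (1 / (r : ℝ)) := by
    have h2 : (dM ^ r) ^ ((r : ℝ)⁻¹) = dM := Real.pow_rpow_inv_natCast hM0.le (by omega)
    rw [one_div, ← h2]
    exact Real.rpow_le_rpow (by positivity) hMN (by positivity)
  have h3 : dM ^ (1 / 2 + ε) ≤ dN ^ ((1 / 2 + ε) / r) := by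
    calc dM ^ (1 / 2 + ε) ≤ (dN ^ (1 / (r : ℝ))) ^ (1 / 2 + ε) :=
          Real.rpow_le_rpow hM0.le h1 (by linarith)
      _ = dN ^ ((1 / 2 + ε) / r) := by
          rw [← Real.rpow_mul hN0.le]
          congr 1
          field_simp
  have h4 : (B * (D / dN ^ 2)) ^ (1 / (r : ℝ)) =
      B ^ (1 / (r : ℝ)) * (D ^ (1 / (r : ℝ)) * dN ^ (-(2 / r) : ℝ)) := by
    rw [Real.mul_rpow hB.le (by positivity), Real.div_rpow hD.le (by positivity),
      ← Real.rpow_natCast dN 2, ← Real.rpow_mul hN0.le, Real.rpow_neg hN0.le, div_eq_mul_inv]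
    congr 4
    push_cast
    ring
  have h5 : dN ^ ((1 / 2 + ε) / r) * dN ^ ε * dN ^ (-(2 / r) : ℝ) ≤ dN ^ (-θ) := by
    rw [← Real.rpow_add hN0, ← Real.rpow_add hN0]
    refine Real.rpow_le_rpow_of_exponent_le hN ?_
    have h6 : (1 / 2 + ε) / r = 1 / (2 * r) + ε / r := by
      field_simp
    have h7 : ε / r ≤ ε := div_le_self hε.le hr1
    have h8 : 3 / (2 * (r : ℝ)) = 2 / r - 1 / (2 * r) := by
      field_simp
      norm_num
    rw [h6]
    linarith
  refine hq.trans ?_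
  calc C * dM ^ (1 / 2 + ε) * dN ^ ε * (B * (D / dN ^ 2)) ^ (1 / (r : ℝ)) ≤
      C * dN ^ ((1 / 2 + ε) / r) * dN ^ ε * (B * (D / dN ^ 2)) ^ (1 / (r : ℝ)) := by
        apply mul_le_mul_of_nonneg_right _ (by positivity)
        apply mul_le_mul_of_nonneg_right _ (by positivity)
        exact mul_le_mul_of_nonneg_left h3 hC
    _ = C * D ^ (1 / (r : ℝ)) * B ^ (1 / (r : ℝ)) *
        (dN ^ ((1 / 2 + ε) / r) * dN ^ ε * dN ^ (-(2 / r) : ℝ)) := by
        rw [h4]
        ring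
    _ ≤ _ := mul_le_mul_of_nonneg_left h5 (by positivity)

theorem boundSE (huni : UnifRE)
    (hpow : ∀ (K Ω : Type) [Field K] [NumberField K] [Field Ω] [Algebra K Ω]
      (M N : IntermediateField K Ω) [FiniteDimensional K N], M ≤ N → ∀ (r : ℕ),
      Module.finrank K N = r * Module.finrank K M → dsc M ^ r ≤ dsc N)
    (hBa : BasicW) (K Ω X : Type) [Field K] [NumberField K] [Field Ω] [Algebra K Ω]
    [IsAlgClosure K Ω] [Group X] [Finite X] (V W : Subgroup X) (hyp : Hyp V W) (D : ℝ) (hD : 0 < D)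
    (θ : ℝ) (hθ : θ < 3 / (2 * (W.relIndex V : ℝ))) :
    ∃ C : ℝ, 0 ≤ C ∧ ∀ P M : IntermediateField K Ω, (P, M) ∈ PW K Ω V W → ∀ B : ℝ, 0 < B →
      (SW V W P M (B * D)).Finite ∧
      (Set.ncard (SW V W P M (B * D)) : ℝ) ≤
        C * B ^ (1 / (W.relIndex V : ℝ)) * (dsc P) ^ (-θ) := by
  obtain ⟨r, hr⟩ : ∃ r : ℕ, r = W.relIndex V := ⟨_, rfl⟩
  have hr0 : 0 < r := by rw [hr]; exact relIndex_pos
  have hr0' : (0 : ℝ) < r := by exact_mod_cast hr0
  have hac : IsAlgClosed Ω := IsAlgClosure.isAlgClosed K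
  rw [← hr] at hθ
  obtain ⟨ε, hε⟩ : ∃ ε : ℝ, ε = (3 / (2 * (r : ℝ)) - θ) / 2 := ⟨_, rfl⟩
  have hε0 : 0 < ε := by rw [hε]; linarith
  obtain ⟨C, hC0, hC⟩ := huni (Module.finrank ℚ K * Nat.card (X ⧸ V)) r ε hε0
  rw [← hr]
  refine ⟨C * D ^ (1 / (r : ℝ)), by positivity, ?_⟩
  intro P M h B hB
  obtain ⟨hMP, hMfd, hP, hM, hG, hN⟩ := hBa K Ω X V W hyp P M h
  have hPfd : FiniteDimensional K P := h.1
  have hNM : NumberField M := nf_of_fd M
  have hNN : NumberField P := nf_of_fd P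
  let _ := algR hMP
  have htow1 := tow1 hMP
  have htow2 := tow2 hMP
  have hrk := finrank_MN hMP (W.relIndex V) (finrank_pw hBa hyp h)
  have hdeg : Module.finrank ℚ M = Module.finrank ℚ K * Nat.card (X ⧸ V) := by
    rw [← hM, Module.finrank_mul_finrank ℚ K M]
  have hd1 : 1 ≤ dsc P := one_le_dsc P
  obtain ⟨Y, hY⟩ : ∃ Y : ℝ, Y = (B * (D / dsc P ^ 2)) ^ (1 / (r : ℝ)) := ⟨_, rfl⟩
  have hY0 : 0 ≤ Y := by rw [hY]; positivity
  have e1 : Y ^ r = B * (D / dsc P ^ 2) := by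
    rw [hY, one_div]
    exact Real.rpow_inv_natCast_pow (by positivity) (by omega)
  have e2 : Y ^ W.relIndex V * dsc P ^ 2 = B * D := by
    rw [← hr, e1]
    field_simp
  have himg := image_FQ hBa hyp h hMP Y
  rw [e2] at himg
  obtain ⟨hf, hle⟩ := hC M P Ω hdeg (by rw [hr]; exact hrk) Y hY0
  have hsub : FQ hMP (2 ^ Module.finrank K M * Nat.card X) Y ⊆ QR M P Ω Y := fun L hL => hL.1
  have hfF : (FQ hMP (2 ^ Module.finrank K M * Nat.card X) Y).Finite := hf.subset hsub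
  refine ⟨by rw [← himg]; exact hfF.image _, ?_⟩
  have h1 : (SW V W P M (B * D)).ncard ≤ (QR M P Ω Y).ncard := by
    rw [← himg]
    exact (Set.ncard_image_le hfF).trans (Set.ncard_le_ncard hsub hf)
  have h2 : ((SW V W P M (B * D)).ncard : ℝ) ≤ (QR M P Ω Y).ncard := by exact_mod_cast h1
  have h3 := calc_boundE hr0 hC0 (one_le_dsc M) hd1 (hpow K Ω M P hMP r (by
    rw [finrank_pw hBa hyp h, ← hr, mul_comm])) hB hD hε0 (θ := θ) (by rw [hε]; linarith)
    (q := ((SW V W P M (B * D)).ncard : ℝ)) (by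
      rw [← hY, dsc_eq M, dsc_eq P]
      exact h2.trans hle)
  exact h3


section

variable {K Ω X : Type} [Field K] [NumberField K] [Field Ω] [Algebra K Ω] [IsAlgClosure K Ω] [Group X]
  [Finite X]

theorem main_asympE (hF : ForwardW) (hBk : BackwardW) (hU : UniqueW) (V W : Subgroup X) (hyp : Hyp V W)
    (D θ : ℝ)
    (hb : ∃ C : ℝ, 0 ≤ C ∧ ∀ P M : IntermediateField K Ω, (P, M) ∈ PW K Ω V W → ∀ B : ℝ, 0 < B →
      (SW V W P M (B * D)).Finite ∧
      (Set.ncard (SW V W P M (B * D)) : ℝ) ≤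
        C * B ^ (1 / (W.relIndex V : ℝ)) * (dsc P) ^ (-θ))
    (hl : ∀ P M : IntermediateField K Ω, (P, M) ∈ PW K Ω V W → ∃ c : ℝ, 0 < c ∧
      Tendsto (fun B : ℝ => (Set.ncard (SW V W P M (B * D)) : ℝ) / B ^ (1 / (W.relIndex V : ℝ)))
        atTop (𝓝 c))
    (hs : Summable (fun p : PW K Ω V W => (dsc p.1.1) ^ (-θ)))
    (hne : (PW K Ω V W).Nonempty) :
    (∀ B : ℝ, 0 < B → (TTW K Ω V W (B * D)).Finite) ∧ ∃ c : ℝ, 0 < c ∧
      Tendsto (fun B : ℝ => (Set.ncard (TTW K Ω V W (B * D)) : ℝ) / B ^ (1 / (W.relIndex V : ℝ)))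
        atTop (𝓝 c) := by
  classical
  obtain ⟨C, hC0, hC⟩ := hb
  choose cM hcM using fun p : PW K Ω V W => hl p.1.1 p.1.2 p.2
  obtain ⟨δ, hδ⟩ : ∃ δ : ℝ, δ = -θ := ⟨_, rfl⟩
  obtain ⟨a, ha⟩ : ∃ a : ℝ, a = 1 / (W.relIndex V : ℝ) := ⟨_, rfl⟩
  rw [← hδ] at hs hC
  simp only [← ha] at hC hcM ⊢
  have hsum' : Summable (fun p : PW K Ω V W => C * (dsc p.1.1) ^ δ) := hs.mul_left C
  -- for fixed `B`
  have key : ∀ B : ℝ, 0 < B → (TTW K Ω V W (B * D)).Finite ∧
      (Set.ncard (TTW K Ω V W (B * D)) : ℝ) =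
        ∑' p : PW K Ω V W, (Set.ncard (SW V W p.1.1 p.1.2 (B * D)) : ℝ) := by
    intro B hB
    have hs1 : Summable (fun p : PW K Ω V W => (Set.ncard (SW V W p.1.1 p.1.2 (B * D)) : ℝ)) := by
      refine Summable.of_nonneg_of_le (fun M => by positivity)
        (fun p => (hC p.1.1 p.1.2 p.2 B hB).2) ?_
      have : (fun p : PW K Ω V W => C * B ^ a * (dsc p.1.1) ^ δ) =
          fun p : PW K Ω V W => B ^ a * (C * (dsc p.1.1) ^ δ) := by
        funext M; ring
      rw [this]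
      exact hsum'.mul_left _
    have hfs : {p : PW K Ω V W | (SW V W p.1.1 p.1.2 (B * D)).Nonempty}.Finite := by
      have h := hs1.tendsto_cofinite_zero.eventually (gt_mem_nhds (zero_lt_one (α := ℝ)))
      rw [Filter.eventually_cofinite] at h
      refine h.subset ?_
      intro p hp
      simp only [Set.mem_ofPred_eq, not_lt]
      have hf := (hC p.1.1 p.1.2 p.2 B hB).1
      have : 0 < Set.ncard (SW V W p.1.1 p.1.2 (B * D)) := (Set.ncard_pos hf).2 hp
      exact_mod_cast this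
    have hT : TTW K Ω V W (B * D) = ⋃ p ∈ hfs.toFinset, SW V W p.1.1 p.1.2 (B * D) := by
      rw [TTW_eq hF hBk hyp]
      ext L
      simp only [Set.mem_iUnion, Set.Finite.mem_toFinset, Set.mem_ofPred_eq, exists_prop]
      constructor
      · rintro ⟨M, hM⟩
        exact ⟨M, ⟨L, hM⟩, hM⟩
      · rintro ⟨M, -, hM⟩
        exact ⟨M, hM⟩
    have hTf : (TTW K Ω V W (B * D)).Finite := by
      rw [hT]
      exact Set.Finite.biUnion hfs.toFinset.finite_toSet (fun p _ => (hC p.1.1 p.1.2 p.2 B hB).1)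
    refine ⟨hTf, ?_⟩
    have hTb : hTf.toFinset =
        hfs.toFinset.biUnion (fun p => ((hC p.1.1 p.1.2 p.2 B hB).1).toFinset) := by
      ext L
      rw [Set.Finite.mem_toFinset, hT]
      simp only [Set.mem_iUnion, Finset.mem_biUnion, Set.Finite.mem_toFinset, exists_prop]
    have hcard : (TTW K Ω V W (B * D)).ncard =
        ∑ p ∈ hfs.toFinset, (SW V W p.1.1 p.1.2 (B * D)).ncard := by
      rw [Set.ncard_eq_toFinset_card _ hTf, hTb, Finset.card_biUnion]
      · refine Finset.sum_congr rfl fun p _ => ?_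
        exact (Set.ncard_eq_toFinset_card _ (hC p.1.1 p.1.2 p.2 B hB).1).symm
      · intro p _ p' _ hpp
        simp only [Function.onFun]
        rw [Finset.disjoint_left]
        intro L h1 h2'
        rw [Set.Finite.mem_toFinset] at h1 h2'
        have h3 := hU K Ω X V W hyp L p.1.1 p.1.2 p'.1.1 p'.1.2 h1.1 h2'.1
        exact hpp (Subtype.ext (Prod.ext h3.1 h3.2))
    rw [hcard, tsum_eq_sum (s := hfs.toFinset)]
    · push_cast; rfl
    · intro p hp
      have : ¬ (SW V W p.1.1 p.1.2 (B * D)).Nonempty := by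
        intro h; exact hp (by simpa using h)
      rw [Set.not_nonempty_iff_eq_empty] at this
      rw [this]; simp
  refine ⟨fun B hB => (key B hB).1, ∑' p : PW K Ω V W, cM p, ?_, ?_⟩
  · have hle : ∀ p : PW K Ω V W, cM p ≤ C * (dsc p.1.1) ^ δ := by
      intro p
      refine le_of_tendsto (hcM p).2 ?_
      filter_upwards [eventually_gt_atTop (0 : ℝ)] with B hB
      rw [div_le_iff₀ (Real.rpow_pos_of_pos hB _)]
      have := (hC p.1.1 p.1.2 p.2 B hB).2
      linarith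
    have hs2 : Summable cM :=
      Summable.of_nonneg_of_le (fun p => (hcM p).1.le) hle hsum'
    obtain ⟨p₀, hp₀⟩ := hne
    exact hs2.tsum_pos (fun p => (hcM p).1.le) ⟨p₀, hp₀⟩ (hcM _).1
  · have h := tendsto_tsum_of_dominated_convergence (𝓕 := atTop)
      (f := fun (B : ℝ) (p : PW K Ω V W) => (Set.ncard (SW V W p.1.1 p.1.2 (B * D)) : ℝ) / B ^ a)
      (g := cM) hsum' (fun p => (hcM p).2) (by
        filter_upwards [eventually_gt_atTop (0 : ℝ)] with B hB p
        have hBa : 0 < B ^ a := Real.rpow_pos_of_pos hB _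
        rw [Real.norm_of_nonneg (by positivity), div_le_iff₀ hBa]
        have := (hC p.1.1 p.1.2 p.2 B hB).2
        linarith)
    refine h.congr' ?_
    filter_upwards [eventually_gt_atTop (0 : ℝ)] with B hB
    rw [(key B hB).2, tsum_div_const]


end

theorem unifRE : UnifRE :=
  unifRE_of Pool.Agent.W5h46.MR.ramR Pool.Agent.TH914.J3087.kumP Pool.Agent.TH89.J3091.idealUnif
    Pool.Agent.NH85.ML.idealUnifE Pool.Agent.H44.MB.princE

theorem dsc_ge_one {K Ω : Type} [Field K] [NumberField K] [Field Ω] [Algebra K Ω]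
    (P : IntermediateField K Ω) : 1 ≤ dsc P := one_le_dsc P

/-- the asymptotic formula from an upper bound for the number of pairs -/
theorem asympE (K : Type) [Field K] [NumberField K] (X : Type) [Group X] [Finite X]
    (V W : Subgroup X) (hyp : Hyp V W) (hne : (Gal K (AlgebraicClosure K) X).Nonempty)
    (A C : ℝ) (hA : A < 3 / (2 * (W.relIndex V : ℝ)))
    (hcount : ∀ Z : ℝ, 1 ≤ Z →
      {p : IntermediateField K (AlgebraicClosure K) × IntermediateField K (AlgebraicClosure K) |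
        p ∈ PW K (AlgebraicClosure K) V W ∧ dsc p.1 ≤ Z}.Finite ∧
      ({p : IntermediateField K (AlgebraicClosure K) × IntermediateField K (AlgebraicClosure K) |
        p ∈ PW K (AlgebraicClosure K) V W ∧ dsc p.1 ≤ Z}.ncard : ℝ) ≤ C * Z ^ A)
    {n : ℕ} (G : Subgroup (Equiv.Perm (Fin n))) (hG : IsC2W V W G) :
    ∃ c : ℝ, 0 < c ∧ Tendsto (fun B : ℝ =>
      (Nat.card (Quot (fun L L' : Cnt K G B => Nonempty (L.1 ≃ₐ[K] L'.1))) : ℝ) /
        B ^ (1 / (W.relIndex V : ℝ))) atTop (𝓝 c) := by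
  have R := rest
  have hd : 0 < ((|discr K| : ℤ) : ℝ) ^ n := by
    have : (0 : ℤ) < |discr K| := abs_pos.2 (discr_ne_zero K)
    have : (0 : ℝ) < ((|discr K| : ℤ) : ℝ) := by exact_mod_cast this
    positivity
  have hr0 : (0 : ℝ) < W.relIndex V := by exact_mod_cast (relIndex_pos (V := V) (W := W))
  obtain ⟨θ, hθ1, hθ2⟩ : ∃ θ : ℝ, max A 0 < θ ∧ θ < 3 / (2 * (W.relIndex V : ℝ)) :=
    exists_between (max_lt hA (by positivity))
  have hθA : A < θ := (le_max_left _ _).trans_lt hθ1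
  have hθ0 : 0 ≤ θ := (le_max_right _ _).trans hθ1.le
  have hsum : Summable (fun p : PW K (AlgebraicClosure K) V W => (dsc p.1.1) ^ (-θ)) := by
    refine Pool.Agent.NH85.ML.summable_of_count
      (fun p : PW K (AlgebraicClosure K) V W => dsc p.1.1) (fun p => dsc_ge_one p.1.1) C A θ ?_
      hθA hθ0
    intro Z hZ
    obtain ⟨h1, h2⟩ := hcount Z hZ
    have himg : (Subtype.val '' {p : PW K (AlgebraicClosure K) V W | dsc p.1.1 ≤ Z}) =
        {p : IntermediateField K (AlgebraicClosure K) × IntermediateField K (AlgebraicClosure K) |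
          p ∈ PW K (AlgebraicClosure K) V W ∧ dsc p.1 ≤ Z} := by
      ext p
      constructor
      · rintro ⟨q, hq, rfl⟩
        exact ⟨q.2, hq⟩
      · rintro ⟨h3, h4⟩
        exact ⟨⟨p, h3⟩, h4, rfl⟩
    refine ⟨?_, ?_⟩
    · refine Set.Finite.of_finite_image ?_ (Subtype.val_injective.injOn)
      rw [himg]
      exact h1
    · rw [← Set.ncard_image_of_injective _ Subtype.val_injective, himg]
      exact h2
  refine asympW_iso R.conj K X V W hG ?_
  exact main_asympE R.fwd R.bwd R.uni V W hyp _ θ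
    (boundSE unifRE R.pow basicW K (AlgebraicClosure K) X V W hyp _ hd θ hθ2)
    (fun P M h => limSW Pool.Agent.W5h46.MR.limR₀ Pool.Agent.W5h46.MR.compR₀
      Pool.Agent.W5h46.MR.fibR Pool.Agent.TH444.ML.quadUnif Pool.Agent.TH263.J3086.discQuad
      Pool.Agent.TH914.J3087.kumP
      Pool.Agent.TH857.J3095.splitSum Pool.Agent.W5h46.MR.unifR₀ basicW hyp h _ hd)
    hsum (R.ex K (AlgebraicClosure K) X V W hne)

theorem gal_of_cntE (K : Type) [Field K] [NumberField K] (X : Type) [Group X] [Finite X]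
    (V W : Subgroup X) (hyp : Hyp V W) {n : ℕ} {G : Subgroup (Equiv.Perm (Fin n))}
    (hG : IsC2W V W G) {B : ℝ} {L : IntermediateField K (AlgebraicClosure K)} (hL : L ∈ Cnt K G B) :
    ∃ M : IntermediateField K (AlgebraicClosure K), M ∈ Gal K (AlgebraicClosure K) X :=
  gal_of_cntW rest.fwd basicW K X V W hyp hG hL

end Pool.Agent.H44.PT
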