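import Pool.Agent.H44.PT.Stm2

/-!
# NXT: the next block system
-/

set_option autoImplicit false

namespace Pool.Agent.H44.PT.NXT


theorem bool_moves : ∀ (σ : Equiv.Perm Bool) (b₀ : Bool), σ b₀ ≠ b₀ → ∀ b, σ b ≠ b := by
  decide

theorem main : S_NXT := by
  intro r m n H G hm hG
  obtain ⟨D, δ, h1, h2, h3, f, hf⟩ := hG
  have hr : 0 < r := by
    rw [← h2 ⟨0, hm⟩, Set.ncard_pos (Set.toFinite _)]
    exact ⟨⟨0, hm⟩, rfl⟩
  refine ⟨D × Bool, fun i => (δ (f i).1, (f i).2), ?_, ?_, ?_⟩
  · intro π hπ x y hxy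
    obtain ⟨h, hh, a, ha⟩ := (hf π).1 hπ
    simp only [Prod.mk.injEq] at hxy ⊢
    rw [ha x, ha y]
    exact ⟨h1 h hh _ _ hxy.1, by rw [hxy.1, hxy.2]⟩
  · intro x
    rw [← h2 (f x).1]
    have hinj : Function.Injective fun z : Fin m => f.symm (z, (f x).2) := by
      intro z z' hz
      have h4 := f.symm.injective hz
      exact (Prod.mk.inj h4).1
    rw [← Set.ncard_image_of_injective {y : Fin m | δ y = δ (f x).1} hinj]
    congr 1
    ext y
    constructor
    · intro hy
      have hy' := Prod.mk.inj (show (δ (f y).1, (f y).2) = (δ (f x).1, (f x).2) from hy)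
      refine ⟨(f y).1, hy'.1, ?_⟩
      show f.symm ((f y).1, (f x).2) = y
      rw [← hy'.2]
      exact f.symm_apply_apply y
    · rintro ⟨z, hz, rfl⟩
      show (δ (f (f.symm (z, (f x).2))).1, (f (f.symm (z, (f x).2))).2) = _
      rw [f.apply_symm_apply]
      exact Prod.ext hz rfl
  · intro π hπ hπ1
    obtain ⟨h, hh, a, ha⟩ := (hf π).1 hπ
    have hfin : {x : Fin n | π x ≠ x}.Finite := Set.toFinite _
    by_cases hh1 : h = 1
    · obtain ⟨x₀, hx₀⟩ : ∃ x₀, π x₀ ≠ x₀ := by
        by_contra hcon
        push Not at hcon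
        exact hπ1 (Equiv.ext hcon)
      have hb : a (δ (f x₀).1) (f x₀).2 ≠ (f x₀).2 := by
        intro hcon
        apply hx₀
        apply f.injective
        rw [ha x₀, hcon, hh1]
        rfl
      have hmv := bool_moves _ _ hb
      have hinj : Function.Injective fun z : Fin m × Bool => f.symm z := f.symm.injective
      have hsub : (fun z : Fin m × Bool => f.symm z) ''
          ({y : Fin m | δ y = δ (f x₀).1} ×ˢ (Set.univ : Set Bool)) ⊆ {x : Fin n | π x ≠ x} := by
        rintro _ ⟨z, ⟨hz, -⟩, rfl⟩ hcon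
        have h5 := congrArg f (show π (f.symm z) = f.symm z from hcon)
        rw [ha, f.apply_symm_apply] at h5
        have hz' : δ z.1 = δ (f x₀).1 := hz
        rw [hz'] at h5
        exact hmv z.2 (congrArg Prod.snd h5)
      have h6 := Set.ncard_le_ncard hsub hfin
      rw [Set.ncard_image_of_injective _ hinj, Set.ncard_prod, h2, Set.ncard_univ,
        Nat.card_eq_fintype_card, Fintype.card_bool] at h6
      omega
    · have hinj : Function.Injective fun z : Fin m => f.symm (z, true) := by
        intro z z' hz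
        exact (Prod.mk.inj (f.symm.injective hz)).1
      have hsub : (fun z : Fin m => f.symm (z, true)) '' {x : Fin m | h x ≠ x} ⊆
          {x : Fin n | π x ≠ x} := by
        rintro _ ⟨z, hz, rfl⟩ hcon
        have h5 := congrArg f (show π (f.symm (z, true)) = f.symm (z, true) from hcon)
        rw [ha, f.apply_symm_apply] at h5
        exact hz (congrArg Prod.fst h5)
      have h6 := Set.ncard_le_ncard hsub hfin
      rw [Set.ncard_image_of_injective _ hinj] at h6
      exact lt_of_lt_of_le (h3 h hh hh1) h6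

end Pool.Agent.H44.PT.NXT
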