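import Pool.Agent.H44.PT.Stm2

/-!
# PT, module SPW (helper77): `C₂ ^ (X / V) ⋊ X` is a split extension of `X` with abelian kernel
-/

set_option autoImplicit false

namespace Pool.Agent.H44.PT.SPW

open Pool.Agent.W5h46.MW (IsC2W Hyp)

theorem comm_bool : ∀ a b : Equiv.Perm Bool, a * b = b * a := by decide

theorem main : S_SPW := by
  intro X _ _ V W n G _ hcore hG
  obtain ⟨f, hf⟩ := hG
  have huniq : ∀ (g : Equiv.Perm (Fin n)) (h h' : X),
      (∀ (i : Fin n) (x : X), (f i).1 = (x : X ⧸ W) → (f (g i)).1 = ((h * x : X) : X ⧸ W)) →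
      (∀ (i : Fin n) (x : X), (f i).1 = (x : X ⧸ W) → (f (g i)).1 = ((h' * x : X) : X ⧸ W)) →
      h = h' := by
    intro g h h' h1 h2
    have h3 : h⁻¹ * h' ∈ W.normalCore := by
      intro x
      have h4 : (f (f.symm ((x⁻¹ : X), true))).1 = ((x⁻¹ : X) : X ⧸ W) := by
        rw [Equiv.apply_symm_apply]
      have h5 := (h1 _ _ h4).symm.trans (h2 _ _ h4)
      rw [QuotientGroup.eq] at h5
      have h6 : x * (h⁻¹ * h') * x⁻¹ = (h * x⁻¹)⁻¹ * (h' * x⁻¹) := by group
      rw [h6]
      exact h5
    rw [hcore, Subgroup.mem_bot] at h3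
    exact inv_mul_eq_one.1 h3
  choose P A hP using fun g : G => (hf g.1).1 g.2
  have hP1 : ∀ (g : G) (i : Fin n) (x : X), (f i).1 = (x : X ⧸ W) →
      (f (g.1 i)).1 = ((P g * x : X) : X ⧸ W) := fun g i x hx => by rw [hP g i x hx]
  let p : G →* X :=
    { toFun := P
      map_one' := huniq 1 _ _ (hP1 1) (fun i x hx => by
        rw [one_mul]
        exact hx)
      map_mul' := fun a b => huniq (a * b).1 _ _ (hP1 (a * b)) (fun i x hx => by
        rw [mul_assoc]
        exact hP1 a (b.1 i) (P b * x) (hP1 b i x hx)) }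
  let s0 : X → Equiv.Perm (Fin n) := fun h =>
    (f.trans (Equiv.prodCongr (MulAction.toPerm h) (Equiv.refl Bool))).trans f.symm
  have hs0 : ∀ h i, f (s0 h i) = (h • (f i).1, (f i).2) := by
    intro h i
    simp [s0, Equiv.prodCongr_apply, Prod.map]
  let s : X →* G :=
    { toFun := fun h => ⟨s0 h, (hf _).2 ⟨h, fun _ => 1, fun i x hx => by
        rw [hs0, hx]
        rfl⟩⟩
      map_one' := by
        apply Subtype.ext
        refine Equiv.ext fun i => ?_
        apply f.injective
        change f (s0 1 i) = f i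
        rw [hs0, one_smul]
      map_mul' := fun a b => by
        apply Subtype.ext
        refine Equiv.ext fun i => ?_
        apply f.injective
        change f (s0 (a * b) i) = f (s0 a (s0 b i))
        rw [hs0, hs0, hs0, mul_smul] }
  refine ⟨p, s, ?_, ?_⟩
  · intro h
    refine huniq (s h).1 _ _ (hP1 (s h)) (fun i x hx => ?_)
    change (f (s0 h i)).1 = _
    rw [hs0, hx]
    rfl
  · have hker : ∀ x : G, p x = 1 → ∃ B : X ⧸ W → Equiv.Perm Bool,
        ∀ i, f (x.1 i) = ((f i).1, B (f i).1 (f i).2) := by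
      intro x hx
      refine ⟨fun q => A x (q.out : X ⧸ V), fun i => ?_⟩
      have h1 := hP x i (f i).1.out (QuotientGroup.out_eq' _).symm
      have h2 : P x = 1 := hx
      rw [h2, one_mul, QuotientGroup.out_eq'] at h1
      exact h1
    intro x y hx hy
    obtain ⟨B, hB⟩ := hker x hx
    obtain ⟨C, hC⟩ := hker y hy
    apply Subtype.ext
    refine Equiv.ext fun i => ?_
    apply f.injective
    change f (x.1 (y.1 i)) = f (y.1 (x.1 i))
    rw [hB, hC, hC, hB]
    dsimp only
    have h3 := congrArg (fun e : Equiv.Perm Bool => e (f i).2) (comm_bool (B (f i).1) (C (f i).1))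
    exact Prod.ext rfl h3

end Pool.Agent.H44.PT.SPW
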