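import Pool.Graph.R_pool_sql_team_seeded_3dad9d7b.NH85.ML.WeakOut
import Pool.Graph.R_pool_sql_team_seeded_9f66d723.W5h46.MW.Done
import Pool.Graph.R_pool_sql_team_seeded_9f66d723.W5h46.MW.P

/-!
# Statements: direct products of wreath products `C₂ ≀ H` with arbitrary groups
-/

set_option autoImplicit false

open NumberField

namespace Pool.Agent.H44.PT

open Pool.Agent.TH444.ML (dsc)
open Pool.Agent.W5h46.MW (PW Hyp IsProd IsC2W)
open Pool.Agent.NH85.ML (GalX img TTX Upper)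

/-- PROD. The pairs `(P, M)` for `X = X₁ × Y`, `V = W₁ × Y`, `W = W₁ × W₂`: `P = M M₂`, where `M₂` is the
fixed field of `X₁ × W₂` (a field of degree `[Y : W₂]`), and `d_P ≥ d_M ^ [Y : W₂]`,
`d_P ≥ d_(M₂) ^ [X₁ : W₁]`. -/
def S_PROD : Prop :=
  ∀ (K : Type) [Field K] [NumberField K] (X₁ Y : Type) [Group X₁] [Finite X₁] [Group Y] [Finite Y]
    (W₁ : Subgroup X₁) (W₂ : Subgroup Y) (A₁ A₂ C₁ C₂ : ℝ), W₁.normalCore = ⊥ → 0 ≤ A₁ → 0 ≤ A₂ →
    (∀ Z : ℝ, 1 ≤ Z → (TTX K (AlgebraicClosure K) (img X₁ (X₁ ⧸ W₁)) Z).Finite ∧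
      ((TTX K (AlgebraicClosure K) (img X₁ (X₁ ⧸ W₁)) Z).ncard : ℝ) ≤ C₁ * Z ^ A₁) →
    (∀ Z : ℝ, 1 ≤ Z → {M : IntermediateField K (AlgebraicClosure K) | FiniteDimensional K M ∧
        Module.finrank K M = W₂.index ∧ dsc M ≤ Z}.Finite ∧
      ({M : IntermediateField K (AlgebraicClosure K) | FiniteDimensional K M ∧
        Module.finrank K M = W₂.index ∧ dsc M ≤ Z}.ncard : ℝ) ≤ C₂ * Z ^ A₂) →
    ∀ Z : ℝ, 1 ≤ Z →
      {p : IntermediateField K (AlgebraicClosure K) × IntermediateField K (AlgebraicClosure K) |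
        p ∈ PW K (AlgebraicClosure K) (W₁.prod (⊤ : Subgroup Y)) (W₁.prod W₂) ∧
          dsc p.1 ≤ Z}.Finite ∧
      ({p : IntermediateField K (AlgebraicClosure K) × IntermediateField K (AlgebraicClosure K) |
        p ∈ PW K (AlgebraicClosure K) (W₁.prod (⊤ : Subgroup Y)) (W₁.prod W₂) ∧
          dsc p.1 ≤ Z}.ncard : ℝ) ≤
        |C₁| * |C₂| * Z ^ (A₁ / W₂.index + A₂ / W₁.index)

/-- FIB. For given `P` there are at most `(number of subgroups of X) ^ 2` pairs `(P, M)`, and `P` has the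
group `X`, acting on `X / W` (`W` core-free). -/
def S_FIB : Prop :=
  ∀ (K : Type) [Field K] [NumberField K] (X : Type) [Group X] [Finite X] (V W : Subgroup X),
    W ≤ V → W.normalCore = ⊥ →
    (∀ P M : IntermediateField K (AlgebraicClosure K), (P, M) ∈ PW K (AlgebraicClosure K) V W →
      P ∈ GalX K (AlgebraicClosure K) (img X (X ⧸ W))) ∧
    ∀ (P : IntermediateField K (AlgebraicClosure K)),
      {M : IntermediateField K (AlgebraicClosure K) |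
        (P, M) ∈ PW K (AlgebraicClosure K) V W}.Finite ∧
      {M : IntermediateField K (AlgebraicClosure K) |
        (P, M) ∈ PW K (AlgebraicClosure K) V W}.ncard ≤ Nat.card (Subgroup X × Subgroup X)

/-- `G ≤ S_n` is, up to numbering, the direct product `G₁ × G₂` in product action on
`{1, ..., n₁} × {1, ..., n₂}`. -/
def IsProduct {n₁ n₂ : ℕ} (G₁ : Subgroup (Equiv.Perm (Fin n₁))) (G₂ : Subgroup (Equiv.Perm (Fin n₂)))
    {n : ℕ} (G : Subgroup (Equiv.Perm (Fin n))) : Prop :=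
  ∃ f : Fin n ≃ Fin n₁ × Fin n₂, ∀ π : Equiv.Perm (Fin n), π ∈ G ↔
    ∃ g₁ ∈ G₁, ∃ g₂ ∈ G₂, ∀ i, f (π i) = (g₁ (f i).1, g₂ (f i).2)

/-- `G ≤ S_n` is, up to numbering, the wreath product `C₂ ≀ H`. -/
def IsC2Wr {m : ℕ} (H : Subgroup (Equiv.Perm (Fin m))) {n : ℕ} (G : Subgroup (Equiv.Perm (Fin n))) :
    Prop :=
  ∃ f : Fin n ≃ Fin m × Bool, ∀ π : Equiv.Perm (Fin n), π ∈ G ↔
    ∃ h ∈ H, ∀ i, (f (π i)).1 = h (f i).1

/-- GLUE. `G = (C₂ ≀ H) × Y`, `H ≤ S_m` and `Y ≤ S_k` transitive, as a product of the form `IsProd` of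
the library; `W₁`, `W₂` are point stabilizers. The last part: every `g ≠ 1` in `H × Y` moves more than
`k` points of `(H × Y) / (W₁ × W₂)` = `{1..m} × {1..k}` (a nontrivial permutation moves at least two
points; use `k < 2 m`). -/
def S_GLUE : Prop :=
  ∀ (m k : ℕ) (H : Subgroup (Equiv.Perm (Fin m))) (Y : Subgroup (Equiv.Perm (Fin k))),
    0 < m → 0 < k → MulAction.IsPretransitive H (Fin m) → MulAction.IsPretransitive Y (Fin k) →
    ∃ (W₁ : Subgroup H) (W₂ : Subgroup Y), W₁.normalCore = ⊥ ∧ W₂.normalCore = ⊥ ∧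
      W₁.index = m ∧ W₂.index = k ∧
      (∀ (n₁ n : ℕ) (G₁ : Subgroup (Equiv.Perm (Fin n₁))) (G : Subgroup (Equiv.Perm (Fin n))),
        IsC2Wr H G₁ → IsProduct G₁ Y G → IsProd W₁ W₂ G) ∧
      (∃ e : (H ⧸ W₁) ≃ Fin m, ∀ (h : H) (q : H ⧸ W₁), e (h • q) = h.1 (e q)) ∧
      (k < 2 * m → Hyp (W₁.prod (⊤ : Subgroup Y)) (W₁.prod W₂))

end Pool.Agent.H44.PT
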