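import Pool.Agent.H44.PT.Stm

/-!
# Statements for towers of block systems (helper44, project BT2)
-/

set_option autoImplicit false

namespace Pool.Agent.H44.PT

open Pool.Agent.W5h46.MW (IsC2W Hyp)

/-- SPW. `p` maps the permutation `(x W, b) ↦ (h x W, a (x V) b)` in `G` to `h` (unique because `W` is
core-free), `s h` is the permutation with `a = 1`; the kernel consists of the `(x W, b) ↦ (x W, a (x V) b)`
and is commutative because `Equiv.Perm Bool` is. Compare `Pool/Agent/H44/PT/SPL.lean`. -/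
def S_SPW : Prop :=
  ∀ (X : Type) [Group X] [Finite X] (V W : Subgroup X) (n : ℕ) (G : Subgroup (Equiv.Perm (Fin n))),
    W ≤ V → W.normalCore = ⊥ → IsC2W V W G →
    ∃ (p : G →* X) (s : X →* G), (∀ h, p (s h) = h) ∧
      ∀ x y : G, p x = 1 → p y = 1 → x * y = y * x

/-- `G = C₂ ^ Δ ⋊ H`, where `Δ` is a system of blocks of `H ≤ S_m` of size `r` (the fibres of `δ`), and
every `h ≠ 1` in `H` moves more than `r` points: `G` consists, up to numbering, of all permutations
`(x, b) ↦ (h x, a (δ x) b)` of `{1, ..., m} × {0, 1}`. -/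
def IsBlockStep (r : ℕ) {m : ℕ} (H : Subgroup (Equiv.Perm (Fin m))) {n : ℕ}
    (G : Subgroup (Equiv.Perm (Fin n))) : Prop :=
  ∃ (D : Type) (δ : Fin m → D),
    (∀ h ∈ H, ∀ x y : Fin m, δ x = δ y → δ (h x) = δ (h y)) ∧
    (∀ x : Fin m, {y : Fin m | δ y = δ x}.ncard = r) ∧
    (∀ h ∈ H, h ≠ 1 → r < {x : Fin m | h x ≠ x}.ncard) ∧
    ∃ f : Fin n ≃ Fin m × Bool, ∀ π : Equiv.Perm (Fin n), π ∈ G ↔
      ∃ h ∈ H, ∃ a : D → Equiv.Perm Bool, ∀ i, f (π i) = (h (f i).1, a (δ (f i).1) (f i).2)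

/-- BLK. `W` = stabilizer of a point `x₀`, `V = {h | δ (h x₀) = δ x₀}` (a subgroup because of the first
condition on `δ`). The map `H / V → D`, `h V ↦ δ (h x₀)` is well defined and injective; a function on
`H / V` extends to one on `D` (by `1` outside of the image). `[V : W]` = number of points in the block of
`x₀`. The last condition of `Hyp` comes from the third condition on `δ`, with `e`. Compare
`Pool/Agent/H44/PT/GLUE.lean` (`exists_equiv`, `core_eq`, `index_eq`, `isProd_of`, `hyp_of`). -/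
def S_BLK : Prop :=
  ∀ (r m n : ℕ) (H : Subgroup (Equiv.Perm (Fin m))) (G : Subgroup (Equiv.Perm (Fin n))),
    0 < m → MulAction.IsPretransitive H (Fin m) → IsBlockStep r H G →
    ∃ V W : Subgroup H, W.relIndex V = r ∧ Hyp V W ∧ IsC2W V W G ∧
      ∃ e : (H ⧸ W) ≃ Fin m, ∀ (h : H) (q : H ⧸ W), e (h • q) = h.1 (e q)

/-- EXB. Existence: for a block system `δ` as in `IsBlockStep` the set of permutations is a subgroup
(`n = m * 2`), and it is transitive if `H` is. -/
def S_EXB : Prop :=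
  (∀ (m r : ℕ) (H : Subgroup (Equiv.Perm (Fin m))) (D : Type) (δ : Fin m → D),
    (∀ h ∈ H, ∀ x y : Fin m, δ x = δ y → δ (h x) = δ (h y)) →
    (∀ x : Fin m, {y : Fin m | δ y = δ x}.ncard = r) →
    (∀ h ∈ H, h ≠ 1 → r < {x : Fin m | h x ≠ x}.ncard) →
    ∃ (n : ℕ) (G : Subgroup (Equiv.Perm (Fin n))), IsBlockStep r H G) ∧
  ∀ (r m n : ℕ) (H : Subgroup (Equiv.Perm (Fin m))) (G : Subgroup (Equiv.Perm (Fin n))),
    IsBlockStep r H G → n = 2 * m ∧
      ((∀ x y : Fin m, ∃ h ∈ H, h x = y) → ∀ x y : Fin n, ∃ g ∈ G, g x = y)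

/-- NXT. The next block system: if `G` is obtained from `H` with the blocks `δ` of size `r`, then
`δ' = (δ (f i).1, (f i).2)` is a block system of `G` with blocks of size `r`, and every `g ≠ 1` in `G` moves
more than `r` points (an element with `h ≠ 1` moves more than `2 r` points, an element with `h = 1` moves
all `2 r` points above a block; `0 < r` follows because a block is not empty, `m > 0`). So the step can be
repeated. -/
def S_NXT : Prop :=
  ∀ (r m n : ℕ) (H : Subgroup (Equiv.Perm (Fin m))) (G : Subgroup (Equiv.Perm (Fin n))),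
    0 < m → IsBlockStep r H G → ∃ (D : Type) (δ : Fin n → D),
    (∀ h ∈ G, ∀ x y : Fin n, δ x = δ y → δ (h x) = δ (h y)) ∧
    (∀ x : Fin n, {y : Fin n | δ y = δ x}.ncard = r) ∧
    (∀ h ∈ G, h ≠ 1 → r < {x : Fin n | h x ≠ x}.ncard)

end Pool.Agent.H44.PT
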