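import Pool.Agent.H44.PT.Crit

/-!
# Products `(C₂ ≀ H) × Y`, with bounds for the number of `H`-fields and of `Y`-fields
-/

set_option autoImplicit false
set_option linter.unusedSectionVars false

open IntermediateField Filter Topology NumberField

namespace Pool.Agent.H44.PT

open Pool.Agent.TH444.ML (dsc dsc_eq one_le_dsc Gal Cnt nf_of_fd)
open Pool.Agent.NH85.ML (GalX HasG img TTX Upper Good hasGp_of_equiv)
open Pool.Agent.H44.MB (BoundE fs_eq)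
open Pool.Agent.W301.Lin (FS)
open Pool.Agent.W5h46.MW (PW Hyp IsProd IsC2W prodQuot relIndex_prod isC2W_of_prod index_W)
open Pool.Agent.W5h46.MR (fix_inj le_of_fix exists_field)
open Pool.Agent.W5h46.ML (dsc_tower)
open Pool.Agent.H44.PT.GAL (galX_of_comap)
open Pool.Agent.H44.PT.PROD (le_rpow_inv dsc_nonneg)

/-- the pairs `(P, M)` for `X = X₁ × Y`, `V = W₁ × Y`, `W = W₁ × W₂` (by helper55, in symmetric form) -/
theorem prod2 (K : Type) [Field K] [NumberField K] (X₁ Y : Type) [Group X₁] [Finite X₁] [Group Y]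
    [Finite Y] (W₁ : Subgroup X₁) (W₂ : Subgroup Y) (A₁ A₂ C₁ C₂ : ℝ)
    (hT₁ : ∀ Z : ℝ, 1 ≤ Z → (TTX K (AlgebraicClosure K) (img X₁ (X₁ ⧸ W₁)) Z).Finite ∧
      ((TTX K (AlgebraicClosure K) (img X₁ (X₁ ⧸ W₁)) Z).ncard : ℝ) ≤ C₁ * Z ^ A₁)
    (hT₂ : ∀ Z : ℝ, 1 ≤ Z → (TTX K (AlgebraicClosure K) (img Y (Y ⧸ W₂)) Z).Finite ∧
      ((TTX K (AlgebraicClosure K) (img Y (Y ⧸ W₂)) Z).ncard : ℝ) ≤ C₂ * Z ^ A₂) :
    ∀ Z : ℝ, 1 ≤ Z →
      {p : IntermediateField K (AlgebraicClosure K) × IntermediateField K (AlgebraicClosure K) |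
        p ∈ PW K (AlgebraicClosure K) (W₁.prod (⊤ : Subgroup Y)) (W₁.prod W₂) ∧
          dsc p.1 ≤ Z}.Finite ∧
      ({p : IntermediateField K (AlgebraicClosure K) × IntermediateField K (AlgebraicClosure K) |
        p ∈ PW K (AlgebraicClosure K) (W₁.prod (⊤ : Subgroup Y)) (W₁.prod W₂) ∧
          dsc p.1 ≤ Z}.ncard : ℝ) ≤
        |C₁| * |C₂| * Z ^ (A₁ / W₂.index + A₂ / W₁.index) := by
  intro Z hZ
  have i2 : Normal K (AlgebraicClosure K) := IsAlgClosure.normal K (AlgebraicClosure K)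
  have i3 : Algebra.IsAlgebraic K (AlgebraicClosure K) := IsAlgClosure.isAlgebraic
  have i4 : Algebra.IsSeparable K (AlgebraicClosure K) := inferInstance
  have i5 : IsGalois K (AlgebraicClosure K) := ⟨⟩
  have hi₁ : W₁.index ≠ 0 := Subgroup.index_ne_zero_of_finite
  have hi₂ : W₂.index ≠ 0 := Subgroup.index_ne_zero_of_finite
  set Z₁ : ℝ := Z ^ ((W₂.index : ℝ)⁻¹) with hZ₁
  set Z₂ : ℝ := Z ^ ((W₁.index : ℝ)⁻¹) with hZ₂
  have hZ₁1 : 1 ≤ Z₁ := Real.one_le_rpow hZ (by positivity)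
  have hZ₂1 : 1 ≤ Z₂ := Real.one_le_rpow hZ (by positivity)
  obtain ⟨hf₁, hc₁⟩ := hT₁ Z₁ hZ₁1
  obtain ⟨hf₂, hc₂⟩ := hT₂ Z₂ hZ₂1
  set T₁ := TTX K (AlgebraicClosure K) (img X₁ (X₁ ⧸ W₁)) Z₁ with hT₁def
  set T₂ := TTX K (AlgebraicClosure K) (img Y (Y ⧸ W₂)) Z₂ with hT₂def
  have hsub : {p : IntermediateField K (AlgebraicClosure K) × IntermediateField K (AlgebraicClosure K) |
        p ∈ PW K (AlgebraicClosure K) (W₁.prod (⊤ : Subgroup Y)) (W₁.prod W₂) ∧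
          dsc p.1 ≤ Z} ⊆ (fun q : IntermediateField K (AlgebraicClosure K) ×
            IntermediateField K (AlgebraicClosure K) => (q.1 ⊔ q.2, q.1)) '' (T₁ ×ˢ T₂) := by
    rintro ⟨P, M⟩ ⟨⟨hPfd, h, hs, hP, hM⟩, hd⟩
    simp only at hPfd hP hM hd
    have hs₁ : Function.Surjective ((MonoidHom.fst X₁ Y).comp h) := by
      intro x
      obtain ⟨σ, hσ⟩ := hs (x, 1)
      exact ⟨σ, by rw [MonoidHom.comp_apply, hσ]; rfl⟩
    have hs₂ : Function.Surjective ((MonoidHom.snd X₁ Y).comp h) := by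
      intro y
      obtain ⟨σ, hσ⟩ := hs (1, y)
      exact ⟨σ, by rw [MonoidHom.comp_apply, hσ]; rfl⟩
    have hM' : W₁.comap ((MonoidHom.fst X₁ Y).comp h) = M.fixingSubgroup := by
      rw [← hM]
      ext σ
      simp [Subgroup.mem_prod]
    have hPle : P.fixingSubgroup ≤ M.fixingSubgroup := by
      rw [← hP, ← hM]
      exact Subgroup.comap_mono (Subgroup.prod_mono le_rfl le_top)
    have hPle₂ : P.fixingSubgroup ≤ W₂.comap ((MonoidHom.snd X₁ Y).comp h) := by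
      rw [← hP]
      intro σ hσ
      rw [Subgroup.mem_comap, Subgroup.mem_prod] at hσ
      exact hσ.2
    have hopen : IsOpen (P.fixingSubgroup : Set (AlgebraicClosure K ≃ₐ[K] AlgebraicClosure K)) :=
      P.fixingSubgroup_isOpen
    obtain ⟨M₂, hM₂, hM₂fd⟩ := exists_field (W₂.comap ((MonoidHom.snd X₁ Y).comp h))
      (Subgroup.isOpen_mono hPle₂ hopen)
    have hMP : M ≤ P := le_of_fix hPle
    have hM₂P : M₂ ≤ P := le_of_fix (by rw [hM₂]; exact hPle₂)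
    have hMfd : FiniteDimensional K M :=
      FiniteDimensional.of_injective (IntermediateField.inclusion hMP).toLinearMap
        (IntermediateField.inclusion hMP).injective
    have hMr : Module.finrank K M = W₁.index := by
      rw [IntermediateField.finrank_eq_fixingSubgroup_index, ← hM',
        Subgroup.index_comap_of_surjective _ hs₁]
    have hM₂r : Module.finrank K M₂ = W₂.index := by
      rw [IntermediateField.finrank_eq_fixingSubgroup_index, hM₂,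
        Subgroup.index_comap_of_surjective _ hs₂]
    have hPr : Module.finrank K P = W₁.index * W₂.index := by
      rw [IntermediateField.finrank_eq_fixingSubgroup_index, ← hP,
        Subgroup.index_comap_of_surjective _ hs, Subgroup.index_prod]
    have hd₁ : dsc M ^ W₂.index ≤ dsc P := dsc_tower M P hMP W₂.index (by rw [hPr, hMr])
    have hd₂ : dsc M₂ ^ W₁.index ≤ dsc P := dsc_tower M₂ P hM₂P W₁.index (by
      rw [hPr, hM₂r, mul_comm])
    refine ⟨(M, M₂), ⟨⟨galX_of_comap W₁ M _ hs₁ hM', ?_⟩, ⟨galX_of_comap W₂ M₂ _ hs₂ hM₂.symm, ?_⟩⟩, ?_⟩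
    · exact le_rpow_inv hi₂ (dsc_nonneg _) (hd₁.trans hd)
    · exact le_rpow_inv hi₁ (dsc_nonneg _) (hd₂.trans hd)
    · simp only
      apply Prod.ext
      · apply fix_inj
        simp only
        rw [IntermediateField.fixingSubgroup_sup, hM₂, ← hM', ← hP]
        ext σ
        simp [Subgroup.mem_prod]
      · rfl
  have hfin : (T₁ ×ˢ T₂).Finite := hf₁.prod hf₂
  have hfinI := hfin.image (fun q : IntermediateField K (AlgebraicClosure K) ×
            IntermediateField K (AlgebraicClosure K) => (q.1 ⊔ q.2, q.1))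
  refine ⟨hfinI.subset hsub, ?_⟩
  have h1 := Set.ncard_le_ncard hsub hfinI
  have h2 := Set.ncard_image_le (f := fun q : IntermediateField K (AlgebraicClosure K) ×
            IntermediateField K (AlgebraicClosure K) => (q.1 ⊔ q.2, q.1)) hfin
  rw [Set.ncard_prod] at h2
  have h3 := h1.trans h2
  have hZ0 : 0 < Z := by linarith
  have hb₁ : (T₁.ncard : ℝ) ≤ |C₁| * Z₁ ^ A₁ :=
    hc₁.trans (mul_le_mul_of_nonneg_right (le_abs_self _) (Real.rpow_nonneg (by linarith) _))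
  have hb₂ : (T₂.ncard : ℝ) ≤ |C₂| * Z₂ ^ A₂ :=
    hc₂.trans (mul_le_mul_of_nonneg_right (le_abs_self _) (Real.rpow_nonneg (by linarith) _))
  refine le_trans (by exact_mod_cast h3 : _ ≤ (T₁.ncard : ℝ) * (T₂.ncard : ℝ)) ?_
  refine le_trans (mul_le_mul hb₁ hb₂ (Nat.cast_nonneg _)
    (mul_nonneg (abs_nonneg _) (Real.rpow_nonneg (by linarith) _))) (le_of_eq ?_)
  rw [hZ₁, hZ₂, ← Real.rpow_mul hZ0.le, ← Real.rpow_mul hZ0.le, Real.rpow_add hZ0]
  rw [div_eq_inv_mul, div_eq_inv_mul]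
  ring


/-- the symmetric form of GLUE (by helper73) -/
theorem glue2 (m k : ℕ) (H : Subgroup (Equiv.Perm (Fin m))) (Y : Subgroup (Equiv.Perm (Fin k)))
    (hm : 0 < m) (hk : 0 < k) (hH : MulAction.IsPretransitive H (Fin m))
    (hY : MulAction.IsPretransitive Y (Fin k)) :
    ∃ (W₁ : Subgroup H) (W₂ : Subgroup Y),
      W₁.index = m ∧ W₂.index = k ∧
      (∀ (n₁ n : ℕ) (G₁ : Subgroup (Equiv.Perm (Fin n₁))) (G : Subgroup (Equiv.Perm (Fin n))),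
        IsC2Wr H G₁ → IsProduct G₁ Y G → IsProd W₁ W₂ G) ∧
      (∃ e : (H ⧸ W₁) ≃ Fin m, ∀ (h : H) (q : H ⧸ W₁), e (h • q) = h.1 (e q)) ∧
      (∃ e : (Y ⧸ W₂) ≃ Fin k, ∀ (h : Y) (q : Y ⧸ W₂), e (h • q) = h.1 (e q)) ∧
      (k < 2 * m → Hyp (W₁.prod (⊤ : Subgroup Y)) (W₁.prod W₂)) := by
  obtain ⟨e₁, he₁⟩ := GLUE.exists_equiv H ⟨0, hm⟩ hH
  obtain ⟨e₂, he₂⟩ := GLUE.exists_equiv Y ⟨0, hk⟩ hY
  refine ⟨MulAction.stabilizer H (⟨0, hm⟩ : Fin m), MulAction.stabilizer Y (⟨0, hk⟩ : Fin k),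
    GLUE.index_eq H _ hH, GLUE.index_eq Y _ hY, ?_, ⟨e₁, he₁⟩, ⟨e₂, he₂⟩, ?_⟩
  · intro n₁ n G₁ G h1 h2
    exact GLUE.isProd_of H Y _ _ e₁ he₁ e₂ he₂ n₁ n G₁ G h1 h2
  · intro hkm
    exact GLUE.hyp_of hm hk hkm H Y _ _ e₁ he₁ e₂ he₂

theorem ttx_quot (K : Type) [Field K] [NumberField K] {m : ℕ} (hm : 0 < m)
    {H : Subgroup (Equiv.Perm (Fin m))} {W₁ : Subgroup H}
    (hε : ∃ e : (H ⧸ W₁) ≃ Fin m, ∀ (h : H) (q : H ⧸ W₁), e (h • q) = h.1 (e q))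
    {e : ℕ → ℝ} (he : BoundE e) {A : ℝ} (hup : Upper K (AlgebraicClosure K) H A) :
    ∃ C : ℝ, ∀ Z : ℝ, 1 ≤ Z → (TTX K (AlgebraicClosure K) (img H (H ⧸ W₁)) Z).Finite ∧
      ((TTX K (AlgebraicClosure K) (img H (H ⧸ W₁)) Z).ncard : ℝ) ≤ C * Z ^ A := by
  obtain ⟨ε, hε⟩ := hε
  obtain ⟨C₁, hC₁0, hC₁⟩ := hup
  obtain ⟨C₃, hC₃⟩ := he.2 m hm K
  have hT : ∀ Z : ℝ, TTX K (AlgebraicClosure K) (img H (H ⧸ W₁)) Z =
      TTX K (AlgebraicClosure K) H Z := by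
    intro Z
    symm
    refine ttx_act K ⟨ε.symm, fun π => ?_⟩ Z
    constructor
    · intro hπ
      refine ⟨⟨π, hπ⟩, fun i => ?_⟩
      rw [Equiv.symm_apply_eq, hε, Equiv.apply_symm_apply]
    · rintro ⟨γ, hγ⟩
      have h1 : π = γ.1 := by
        ext1 i
        have h2 := hγ i
        rw [Equiv.symm_apply_eq, hε, Equiv.apply_symm_apply] at h2
        exact h2
      rw [h1]
      exact γ.2
  refine ⟨C₁, fun Z hZ => ?_⟩
  rw [hT]
  exact ⟨(hC₃ Z hZ).1.subset (ttx_sub K hm H Z), hC₁ Z hZ⟩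

/-- the asymptotic formula for `(C₂ ≀ H) × Y` -/
theorem prod_asymp2 (K : Type) [Field K] [NumberField K] {m k : ℕ} (hm : 0 < m)
    (hk : 0 < k) (H : Subgroup (Equiv.Perm (Fin m))) (Y : Subgroup (Equiv.Perm (Fin k)))
    (htH : MulAction.IsPretransitive H (Fin m)) (htY : MulAction.IsPretransitive Y (Fin k))
    (hkm : k < 2 * m) {e : ℕ → ℝ} (he : BoundE e) {A A' : ℝ}
    (hup : Upper K (AlgebraicClosure K) H A) (hupY : Upper K (AlgebraicClosure K) Y A')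
    (hexp : A / k + A' / m < 3 / (2 * (k : ℝ)))
    (hX : (Gal K (AlgebraicClosure K) (H × Y)).Nonempty) {n₁ n : ℕ}
    {G₁ : Subgroup (Equiv.Perm (Fin n₁))} {G : Subgroup (Equiv.Perm (Fin n))}
    (hG₁ : IsC2Wr H G₁) (hG : IsProduct G₁ Y G) :
    ∃ c : ℝ, 0 < c ∧ Tendsto (fun B : ℝ =>
      (Nat.card (Quot (fun L L' : Cnt K G B => Nonempty (L.1 ≃ₐ[K] L'.1))) : ℝ) /
        B ^ (1 / (k : ℝ))) atTop (𝓝 c) := by
  obtain ⟨W₁, W₂, hi1, hi2, hprod, hε₁, hε₂, hyp⟩ := glue2 m k H Y hm hk htH htY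
  have hhyp := hyp hkm
  have hrel : (W₁.prod W₂).relIndex (W₁.prod (⊤ : Subgroup Y)) = k := by
    rw [relIndex_prod, hi2]
  obtain ⟨C₁, hC₁⟩ := ttx_quot K hm hε₁ he hup
  obtain ⟨C₂, hC₂⟩ := ttx_quot K hk hε₂ he hupY
  have hcount := prod2 K H Y W₁ W₂ A A' C₁ C₂ hC₁ hC₂
  have h := asympE K (H × Y) (W₁.prod (⊤ : Subgroup Y)) (W₁.prod W₂) hhyp hX
    (A / W₂.index + A' / W₁.index) (|C₁| * |C₂|) (by rw [hrel, hi1, hi2]; exact hexp) hcount G
    (isC2W_of_prod (hprod n₁ n G₁ G hG₁ hG))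
  rwa [hrel] at h

end Pool.Agent.H44.PT
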