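import Pool.Agent.H44.PT.Upw

/-!
# One step with a block system
-/

set_option autoImplicit false
set_option linter.unusedSectionVars false

open IntermediateField Filter Topology NumberField

namespace Pool.Agent.H44.PT

open Pool.Agent.TH444.ML (dsc dsc_eq one_le_dsc Gal Cnt nf_of_fd)
open Pool.Agent.NH85.ML (GalX HasG img TTX Upper Good galX_of_gal)
open Pool.Agent.H44.MB (BoundE good_mono)
open Pool.Agent.W5h46.MW (PW Hyp IsC2W index_W)

theorem act_of_equiv {m : ℕ} {H : Subgroup (Equiv.Perm (Fin m))} {W : Subgroup H}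
    (hε : ∃ e : (H ⧸ W) ≃ Fin m, ∀ (h : H) (q : H ⧸ W), e (h • q) = h.1 (e q)) :
    ∃ f : Fin m ≃ H ⧸ W, ∀ π : Equiv.Perm (Fin m), π ∈ H ↔ ∃ g : H, ∀ i, f (π i) = g • f i := by
  obtain ⟨ε, hε⟩ := hε
  refine ⟨ε.symm, fun π => ?_⟩
  constructor
  · intro hπ
    refine ⟨⟨π, hπ⟩, fun i => ?_⟩
    rw [Equiv.symm_apply_eq, hε, Equiv.apply_symm_apply]
  · rintro ⟨γ, hγ⟩
    have h1 : π = γ.1 := by
      ext1 i
      have h2 := hγ i
      rw [Equiv.symm_apply_eq, hε, Equiv.apply_symm_apply] at h2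
      exact h2
    rw [h1]
    exact γ.2

/-- the splitting for one step -/
theorem split_step (hSP : S_SPW) (hB : S_BLK) {r m n : ℕ} (hm : 0 < m)
    {H : Subgroup (Equiv.Perm (Fin m))} (htr : MulAction.IsPretransitive H (Fin m))
    {G : Subgroup (Equiv.Perm (Fin n))} (hst : IsBlockStep r H G) :
    ∃ (p : G →* H) (s : H →* G), (∀ h, p (s h) = h) ∧
      ∀ x y : G, p x = 1 → p y = 1 → x * y = y * x := by
  obtain ⟨V, W, -, hyp, hG, -⟩ := hB r m n H G hm htr hst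
  exact hSP H V W n G hyp.le hyp.core hG

theorem hom_stepW (hSP : S_SPW) (hB : S_BLK) {r m n : ℕ} (hm : 0 < m)
    {H : Subgroup (Equiv.Perm (Fin m))} (htr : MulAction.IsPretransitive H (Fin m))
    {G : Subgroup (Equiv.Perm (Fin n))} (hst : IsBlockStep r H G) :
    ∃ p : G →* H, Function.Surjective p := by
  obtain ⟨p, s, h1, -⟩ := split_step hSP hB hm htr hst
  exact ⟨p, fun h => ⟨s h, h1 h⟩⟩

theorem real_stepW (hSP : S_SPW) (hB : S_BLK) (K : Type) [Field K] [NumberField K] {r m n : ℕ}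
    (hm : 0 < m) {H : Subgroup (Equiv.Perm (Fin m))} (htr : MulAction.IsPretransitive H (Fin m))
    {G : Subgroup (Equiv.Perm (Fin n))} (hst : IsBlockStep r H G)
    (hX : (Gal K (AlgebraicClosure K) H).Nonempty) :
    (Gal K (AlgebraicClosure K) G).Nonempty := by
  obtain ⟨p, s, h1, h2⟩ := split_step hSP hB hm htr hst
  obtain ⟨M, hM⟩ := hX
  exact Pool.Agent.W5h93.MX.gal_of_cls K p
    (Pool.Agent.TH444.TW.Cls.abelian _ s h1 inferInstance h2)
    (Pool.Agent.W5h93.MX.isG_of_gal K (MonoidHom.id H) Function.surjective_id hM)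

/-- the constants -/
theorem consts_stepW (hB : S_BLK) {r m n : ℕ} (hm : 0 < m)
    {H : Subgroup (Equiv.Perm (Fin m))} (htr : MulAction.IsPretransitive H (Fin m))
    {G : Subgroup (Equiv.Perm (Fin n))} (hst : IsBlockStep r H G) :
    IsLeast {j : ℕ | ∃ g ∈ G, g ≠ 1 ∧ j = g.cycleType.sum - Multiset.card g.cycleType} r ∧
    ∀ g ∈ G, ∀ h ∈ G, g.cycleType.sum - Multiset.card g.cycleType = r →
      h.cycleType.sum - Multiset.card h.cycleType = r → ∃ x ∈ G, h = x * g * x⁻¹ := by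
  obtain ⟨V, W, hr, hyp, hG, -⟩ := hB r m n H G hm htr hst
  have h := index_W hyp hG
  simp only [ind_conv] at h
  rw [hr] at h
  refine ⟨⟨?_, ?_⟩, h.2⟩
  · obtain ⟨g, hg, hg1, hg2⟩ := h.1.1
    exact ⟨g, hg, hg1, hg2.symm⟩
  · rintro j ⟨g, hg, hg1, rfl⟩
    exact h.1.2 ⟨g, hg, hg1, rfl⟩

theorem down_stepW (hB : S_BLK) (K : Type) [Field K] [NumberField K] {r m n : ℕ} (hm : 0 < m)
    {H : Subgroup (Equiv.Perm (Fin m))} (htr : MulAction.IsPretransitive H (Fin m))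
    {G : Subgroup (Equiv.Perm (Fin n))} (hst : IsBlockStep r H G) {B : ℝ}
    (hne : (Cnt K G B).Nonempty) : (Gal K (AlgebraicClosure K) H).Nonempty := by
  obtain ⟨V, W, hr, hyp, hG, -⟩ := hB r m n H G hm htr hst
  obtain ⟨L, hL⟩ := hne
  obtain ⟨M, hM⟩ := gal_of_cntE K H V W hyp hG hL
  exact ⟨M, hM⟩

/-- the asymptotic formula -/
theorem asymp_stepW (hB : S_BLK) (K : Type) [Field K] [NumberField K] {r m n : ℕ} (hm : 0 < m)
    {H : Subgroup (Equiv.Perm (Fin m))} (htr : MulAction.IsPretransitive H (Fin m))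
    {G : Subgroup (Equiv.Perm (Fin n))} (hst : IsBlockStep r H G) {e : ℕ → ℝ} (he : BoundE e)
    {A : ℝ} (hup : Upper K (AlgebraicClosure K) H A) (hA : A < 3 / (2 * (r : ℝ)))
    (hX : (Gal K (AlgebraicClosure K) H).Nonempty) :
    ∃ c : ℝ, 0 < c ∧ Tendsto (fun B : ℝ =>
      (Nat.card (Quot (fun L L' : Cnt K G B => Nonempty (L.1 ≃ₐ[K] L'.1))) : ℝ) /
        B ^ (1 / (r : ℝ))) atTop (𝓝 c) := by
  obtain ⟨V, W, hr, hyp, hG, hε⟩ := hB r m n H G hm htr hst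
  have h := crit_asymp K H V W hyp hm (act_of_equiv hε) hup (by rw [hr]; exact hA) he hX hG
  rwa [hr] at h

/-- the upper bound for one step -/
theorem upper_stepW (hB : S_BLK) (K : Type) [Field K] [NumberField K] {r m n : ℕ} (hm : 0 < m)
    {H : Subgroup (Equiv.Perm (Fin m))} (htr : MulAction.IsPretransitive H (Fin m))
    {G : Subgroup (Equiv.Perm (Fin n))} (hst : IsBlockStep r H G) {e : ℕ → ℝ} (he : BoundE e)
    {A : ℝ} (hup : Upper K (AlgebraicClosure K) H A) (ε : ℝ) (hε : 0 < ε) :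
    Upper K (AlgebraicClosure K) G (max (1 / (r : ℝ)) (A / 2 + 1 / (4 * (r : ℝ))) + ε) := by
  obtain ⟨V, W, hr, hyp, hG, hε'⟩ := hB r m n H G hm htr hst
  obtain ⟨C, hC⟩ := ttx_quot K hm hε' he hup
  have h := upperW K H V W hyp A (Nat.card (Subgroup H × Subgroup H) * C)
    (fun Z hZ => count_pairs K H V W hyp.le hyp.core (hC Z hZ).1 (hC Z hZ).2) G hG ε hε
  rwa [hr] at h

theorem galX_of_real (K : Type) [Field K] [NumberField K] {n : ℕ} (hn : 0 < n)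
    {G : Subgroup (Equiv.Perm (Fin n))} (htr : MulAction.IsPretransitive G (Fin n))
    (hX : (Gal K (AlgebraicClosure K) G).Nonempty) : (GalX K (AlgebraicClosure K) G).Nonempty := by
  obtain ⟨M, hM⟩ := hX
  have h := galX_of_gal (P := Fin n) M hM (⟨0, hn⟩ : Fin n)
    (fun x => MulAction.exists_smul_eq G (⟨0, hn⟩ : Fin n) x)
  have h1 : img G (Fin n) = G := by
    ext π
    constructor
    · rintro ⟨γ, rfl⟩
      exact γ.2
    · intro hπ
      exact ⟨⟨π, hπ⟩, rfl⟩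
  rwa [h1] at h

/-- good groups, one step -/
theorem good_stepW (hSP : S_SPW) (hB : S_BLK) (hEX : S_EXB) (K : Type) [Field K] [NumberField K]
    {r m n : ℕ} (hm : 0 < m)
    {H : Subgroup (Equiv.Perm (Fin m))} (htr : MulAction.IsPretransitive H (Fin m))
    {G : Subgroup (Equiv.Perm (Fin n))} (hst : IsBlockStep r H G) {e : ℕ → ℝ} (he : BoundE e)
    {A : ℝ} (hup : Upper K (AlgebraicClosure K) H A)
    (hX : (Gal K (AlgebraicClosure K) H).Nonempty) (ε : ℝ) (hε : 0 < ε) :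
    Good K G (max (1 / (r : ℝ)) (A / 2 + 1 / (4 * (r : ℝ))) + ε) := by
  obtain ⟨hn, ht⟩ := hEX.2 r m n H G hst
  refine ⟨galX_of_real K (by omega) ⟨fun x y => ?_⟩ (real_stepW hSP hB K hm htr hst hX),
    upper_stepW hB K hm htr hst he hup ε hε⟩
  obtain ⟨g, hg, h1⟩ := ht (fun x y => by
    obtain ⟨h, hh⟩ := MulAction.exists_smul_eq H x y
    exact ⟨h.1, h.2, hh⟩) x y
  exact ⟨⟨g, hg⟩, h1⟩

/-- the exponents -/
theorem exp_stepW {r s : ℕ} (hr : 0 < r) (hrs : r ≤ s) (c : ℝ) (i : ℕ) (ε : ℝ) (hε : 0 < ε) :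
    max (1 / (s : ℝ)) ((max (1 / (r : ℝ)) (1 / (2 * (r : ℝ)) + c / 2 ^ i) + ε) / 2 +
      1 / (4 * (s : ℝ))) + ε / 2 ≤ max (1 / (r : ℝ)) (1 / (2 * (r : ℝ)) + c / 2 ^ (i + 1)) + ε := by
  have hr' : (0 : ℝ) < r := by exact_mod_cast hr
  have hs' : (r : ℝ) ≤ s := by exact_mod_cast hrs
  have e1 : 1 / (s : ℝ) ≤ 1 / r := one_div_le_one_div_of_le hr' hs'
  have e2 : 1 / (4 * (s : ℝ)) ≤ 1 / (4 * r) := one_div_le_one_div_of_le (by positivity) (by linarith)
  have e3 : 1 / (2 * (r : ℝ)) = 2 * (1 / (4 * r)) := by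
    field_simp
    norm_num
  have e4 : 1 / (r : ℝ) = 4 * (1 / (4 * r)) := by
    field_simp
  obtain ⟨q, hq⟩ : ∃ q : ℝ, q = 1 / (4 * (r : ℝ)) := ⟨_, rfl⟩
  obtain ⟨y, hy⟩ : ∃ y : ℝ, y = c / 2 ^ i := ⟨_, rfl⟩
  have e5 : c / 2 ^ (i + 1) = y / 2 := by
    rw [hy, pow_succ, div_div]
  have hq0 : 0 < q := by rw [hq]; positivity
  rw [e5, ← hy, e3]
  rw [e4] at e1 ⊢
  rw [← hq] at e1 e2 ⊢
  have h1 := le_max_left (4 * q) (2 * q + y / 2)
  have h2 := le_max_right (4 * q) (2 * q + y / 2)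
  have h3 : max (4 * q) (2 * q + y) ≤ 2 * max (4 * q) (2 * q + y / 2) - 2 * q := by
    refine max_le ?_ ?_ <;> linarith
  have h4 : max (1 / (s : ℝ)) ((max (4 * q) (2 * q + y) + ε) / 2 + 1 / (4 * (s : ℝ))) ≤
      max (4 * q) (2 * q + y / 2) + ε / 2 := by
    refine max_le ?_ ?_ <;> linarith
  linarith

end Pool.Agent.H44.PT
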