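import Pool.Graph.R_pool_sql_team_seeded_9f66d723.W5h46.MR.Facts
import Pool.Agent.H44.MB.Qud

/-!
# Uniform upper bound for the number of quadratic extensions `L` of `M`, ordered by the
discriminant of `L N`, with the exponent `1 / 2 + ε` for `d_M`

The proof follows `W5h46/MR/JobC.lean` of the library.
-/

set_option autoImplicit false

open NumberField Filter Topology

namespace Pool.Agent.H44.PT

open Pool.Agent.TH444.ML
open Pool.Agent.TH293.J3093
open Pool.Agent.NH85.ML (IdealUnifE)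
open Pool.Agent.H44.MB (PrincE)
open Pool.Agent.W5h46.MR (QR RamR sqfDiv)

/-- uniform upper bound -/
def UnifRE : Prop :=
  ∀ (D r : ℕ) (ε : ℝ), 0 < ε → ∃ C : ℝ, 0 ≤ C ∧ ∀ (M N E : Type) [Field M] [NumberField M] [Field N]
    [NumberField N] [Algebra M N] [Field E] [Algebra M E] [Algebra N E] [IsScalarTower M N E]
    [IsAlgClosed E], Module.finrank ℚ M = D → Module.finrank M N = r → ∀ Y : ℝ, 0 ≤ Y →
      (QR M N E Y).Finite ∧
      (Set.ncard (QR M N E Y) : ℝ) ≤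
        C * ((|discr M| : ℤ) : ℝ) ^ (1 / 2 + ε) * ((|discr N| : ℤ) : ℝ) ^ ε * Y

theorem unifRE_of (hR : RamR) (h2 : KumP) (h3 : IdealUnif) (h3' : IdealUnifE) (h4 : PrincE) :
    UnifRE := by
  classical
  intro D r ε hε
  obtain ⟨CI, hCI0, hCI⟩ := h3' D ε hε
  obtain ⟨CP, hCP0, hCP⟩ := h4 D (ε / 2) (by linarith)
  obtain ⟨CR, hCR1, hCR⟩ := sqfDiv h3 D ε hε
  have hC0 : (0 : ℝ) ≤ CI * (2 ^ D) ^ (1 + ε) * (CP * 4 ^ D) * 2 ^ D * CR := by
    have : (0 : ℝ) ≤ CR := by linarith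
    positivity
  refine ⟨CI * (2 ^ D) ^ (1 + ε) * (CP * 4 ^ D) * 2 ^ D * CR, hC0, ?_⟩
  intro M N E _ _ _ _ _ _ _ _ _ _ hD _ Y hY
  obtain ⟨𝔕, h𝔕0, h𝔕N, hram⟩ := hR M N
  obtain ⟨hRfin, hRcard⟩ := hCR M hD 𝔕 h𝔕0
  set d : ℝ := ((|discr M| : ℤ) : ℝ) with hd
  have hd1 : 1 ≤ d := disc_pos M
  have hd0 : 0 ≤ d := by linarith
  set δ : ℝ := d ^ (1 / 2 : ℝ) with hδ
  have hδ1 : 1 ≤ δ := Real.one_le_rpow hd1 (by norm_num)
  obtain ⟨rep, hrep, hrep0, hinj, hrepN⟩ := exists_rep M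
  rw [hD] at hrepN
  obtain ⟨kum1, kum2, -⟩ := h2 M E rep hrep
  obtain ⟨par, hpar⟩ := exists_par M
  obtain ⟨w, hw⟩ := exists_gen M
  -- finiteness of the ideals of bounded norm
  have hIfin : ∀ Z : ℝ, 1 ≤ Z → {I : Ideal (𝓞 M) | I ≠ ⊥ ∧ (Ideal.absNorm I : ℝ) ≤ Z}.Finite :=
    fun Z hZ => (hCI M hD Z hZ).1
  have hIcard : ∀ Z : ℝ, 1 ≤ Z →
      (Set.ncard {I : Ideal (𝓞 M) | I ≠ ⊥ ∧ (Ideal.absNorm I : ℝ) ≤ Z} : ℝ) ≤
        CI * Z ^ (1 + ε) := fun Z hZ => (hCI M hD Z hZ).2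
  -- the class number
  have hcl : (Fintype.card (ClassGroup (𝓞 M)) : ℝ) ≤ CI * (2 ^ D * δ) ^ (1 + ε) := by
    have hZ : (1 : ℝ) ≤ 2 ^ D * δ := by
      have : (1 : ℝ) ≤ 2 ^ D := one_le_pow₀ (by norm_num)
      nlinarith
    refine le_trans ?_ (hIcard _ hZ)
    rw [← Nat.card_eq_fintype_card, ← Set.ncard_univ]
    have h5 : (Set.univ : Set (ClassGroup (𝓞 M))).ncard ≤
        {I : Ideal (𝓞 M) | I ≠ ⊥ ∧ (Ideal.absNorm I : ℝ) ≤ 2 ^ D * δ}.ncard :=
      Set.ncard_le_ncard_of_injOn rep (fun C _ => ⟨hrep0 C, hrepN C⟩)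
        (fun C _ C' _ h => hinj h) (hIfin _ hZ)
    exact_mod_cast h5
  -- data of an extension
  have hdata : ∀ L : IntermediateField M E, ∃ (C : ClassGroup (𝓞 M)) (α : 𝓞 M) (s : E),
      Module.finrank M L = 2 → Sqf M (rep C) α ∧
        s ^ 2 = algebraMap M E (α : M) ∧ (∀ x : M, algebraMap M E x ≠ s) ∧
        L = IntermediateField.adjoin M {s} := by
    intro L
    by_cases h : Module.finrank M L = 2
    · obtain ⟨C, α, s, h5⟩ := kum1 L h
      exact ⟨C, α, s, fun _ => h5⟩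
    · exact ⟨ClassGroup.mk0 1, 0, 0, fun h' => absurd h' h⟩
  choose cl al sq hdat using hdata
  -- the ramified part
  have hram' : ∀ L ∈ QR M N E Y, ∃ 𝔯 : Ideal (𝓞 M), Squarefree 𝔯 ∧ 𝔯 ∣ 𝔕 ∧
      ∃ 𝔟 : Ideal (𝓞 M), 𝔟 ≠ 0 ∧ Ideal.span {al L} = 𝔯 * 𝔟 * (rep (cl L)) ^ 2 ∧
        (Ideal.absNorm 𝔟 : ℝ) ≤ 4 ^ D * Y := by
    rintro L ⟨hL2, hLN, hLd⟩
    obtain ⟨⟨hα0, 𝔡, hsf, h𝔡⟩, hs, hsM, hLs⟩ := hdat L hL2
    have hadj : IntermediateField.adjoin N (L : Set E) = IntermediateField.adjoin N {sq L} := by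
      apply le_antisymm
      · rw [IntermediateField.adjoin_le_iff]
        intro x hx
        have hx' : x ∈ IntermediateField.adjoin M {sq L} := by
          rw [← hLs]
          exact hx
        have h5 : IntermediateField.adjoin M {sq L} ≤
            (IntermediateField.adjoin N {sq L}).restrictScalars M := by
          rw [IntermediateField.adjoin_le_iff]
          intro y hy
          exact IntermediateField.subset_adjoin N {sq L} hy
        exact h5 hx'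
      · rw [IntermediateField.adjoin_simple_le_iff]
        apply IntermediateField.subset_adjoin
        have h5 := IntermediateField.mem_adjoin_simple_self M (sq L)
        rw [← hLs] at h5
        exact h5
    rw [hadj] at hLN hLd
    have hsN : ∀ x : N, algebraMap N E x ≠ sq L := by
      intro x hx
      have h5 : IntermediateField.adjoin N {sq L} = ⊥ := by
        rw [IntermediateField.adjoin_simple_eq_bot_iff, ← hx]
        exact IntermediateField.algebraMap_mem _ x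
      rw [h5, IntermediateField.finrank_bot] at hLN
      omega
    obtain ⟨𝔯, 𝔟, hrb, hr, hb⟩ := hram E (al L) (sq L) 𝔡 (rep (cl L)) hα0 hsf h𝔡 hs hsN Y hY hLd
    rw [hD] at hb
    have hsf' := hsf
    rw [hrb] at hsf'
    refine ⟨𝔯, hsf'.squarefree_of_dvd (Dvd.intro _ rfl), hr, 𝔟,
      (hsf'.squarefree_of_dvd (Dvd.intro_left _ rfl)).ne_zero, ?_, hb⟩
    rw [h𝔡, hrb]
  choose! ra hra1 hra2 bb hbb0 hbb1 hbb2 using hram'
  -- the principal ideals
  let P : ClassGroup (𝓞 M) → Ideal (𝓞 M) → Set (Ideal (𝓞 M)) := fun C 𝔯 =>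
    {I | I ≠ ⊥ ∧ 𝔯 * (rep C) ^ 2 ∣ I ∧ (∃ x, I = Ideal.span {x}) ∧
      (Ideal.absNorm I : ℝ) ≤ Ideal.absNorm (𝔯 * (rep C) ^ 2) * (4 ^ D * Y)}
  have hLP : ∀ L ∈ QR M N E Y, 1 ≤ 4 ^ D * Y ∧ Ideal.span {al L} ∈ P (cl L) (ra L) := by
    intro L hL
    have hα0 : al L ≠ 0 := (hdat L hL.1).1.1
    have hN1 : (1 : ℝ) ≤ Ideal.absNorm (bb L) := by
      have : Ideal.absNorm (bb L) ≠ 0 := by
        rw [Ne, Ideal.absNorm_eq_zero_iff]
        exact hbb0 L hL
      exact_mod_cast Nat.one_le_iff_ne_zero.2 this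
    refine ⟨hN1.trans (hbb2 L hL), ?_, ?_, ⟨al L, rfl⟩, ?_⟩
    · rw [Ne, Ideal.span_singleton_eq_bot]
      exact hα0
    · rw [hbb1 L hL]
      exact ⟨bb L, by ring⟩
    · rw [hbb1 L hL, show ra L * bb L * rep (cl L) ^ 2 = (ra L * rep (cl L) ^ 2) * bb L by ring,
        map_mul _ (ra L * rep (cl L) ^ 2)]
      push_cast
      exact mul_le_mul_of_nonneg_left (hbb2 L hL) (by positivity)
  rcases Set.eq_empty_or_nonempty (QR M N E Y) with hemp | ⟨L0, hL0⟩
  · rw [hemp]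
    refine ⟨Set.finite_empty, ?_⟩
    rw [Set.ncard_empty, Nat.cast_zero]
    exact mul_nonneg (mul_nonneg (mul_nonneg hC0 (Real.rpow_nonneg hd0 _))
      (Real.rpow_nonneg (by linarith [disc_pos N]) _)) hY
  have hY1 : 1 ≤ 4 ^ D * Y := (hLP L0 hL0).1
  have hPfin : ∀ x : ClassGroup (𝓞 M) × Ideal (𝓞 M), (P x.1 x.2).Finite := by
    intro x
    have hN : (0 : ℝ) ≤ Ideal.absNorm (x.2 * (rep x.1) ^ 2) * (4 ^ D * Y) := by positivity
    refine (hIfin (Ideal.absNorm (x.2 * (rep x.1) ^ 2) * (4 ^ D * Y) + 1) (by linarith)).subset ?_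
    rintro I ⟨h5, -, -, h6⟩
    exact ⟨h5, by linarith⟩
  have hPcard : ∀ x : ClassGroup (𝓞 M) × Ideal (𝓞 M), x.2 ≠ ⊥ → ((P x.1 x.2).ncard : ℝ) ≤
      CP * d ^ (ε / 2) * (4 ^ D * Y) := fun x hx =>
    hCP M hD (x.2 * (rep x.1) ^ 2) (mul_ne_zero hx (pow_ne_zero 2 (hrep0 x.1)))
      (4 ^ D * Y) hY1
  let RS : Finset (Ideal (𝓞 M)) := hRfin.toFinset
  have hRS : (RS.card : ℝ) ≤ CR * ((|discr N| : ℤ) : ℝ) ^ ε := by
    have e1 : RS.card = Set.ncard {r : Ideal (𝓞 M) | Squarefree r ∧ r ∣ 𝔕} :=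
      (Set.ncard_eq_toFinset_card _ hRfin).symm
    rw [e1]
    refine hRcard.trans (mul_le_mul_of_nonneg_left ?_ (by linarith))
    exact Real.rpow_le_rpow (Nat.cast_nonneg _) h𝔕N hε.le
  -- the map
  let W := Bool × (Fin (Units.rank M) → Bool)
  let Φ : IntermediateField M E → ClassGroup (𝓞 M) × Ideal (𝓞 M) × W :=
    fun L => (cl L, Ideal.span {al L}, par (w (al L)))
  let T : Finset (ClassGroup (𝓞 M) × Ideal (𝓞 M) × W) :=
    (Finset.univ ×ˢ RS).biUnion fun x => {x.1} ×ˢ ((hPfin x).toFinset ×ˢ Finset.univ)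
  have hmaps : ∀ L ∈ QR M N E Y, Φ L ∈ (T : Set (ClassGroup (𝓞 M) × Ideal (𝓞 M) × W)) := by
    intro L hL
    rw [Finset.mem_coe, Finset.mem_biUnion]
    refine ⟨(cl L, ra L), Finset.mem_product.2 ⟨Finset.mem_univ _,
      hRfin.mem_toFinset.2 ⟨hra1 L hL, hra2 L hL⟩⟩, ?_⟩
    rw [Finset.mem_product, Finset.mem_product]
    exact ⟨Finset.mem_singleton_self _, (hPfin _).mem_toFinset.2 (hLP L hL).2, Finset.mem_univ _⟩
  have hinjΦ : Set.InjOn Φ (QR M N E Y) := by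
    rintro L ⟨hL2, -⟩ L' ⟨hL2', -⟩ hΦ
    obtain ⟨⟨hα0, -⟩, hs, -, hLs⟩ := hdat L hL2
    obtain ⟨⟨hα0', -⟩, hs', -, hLs'⟩ := hdat L' hL2'
    have e1 : Ideal.span {al L} = Ideal.span {al L'} := (Prod.ext_iff.1 (Prod.ext_iff.1 hΦ).2).1
    have e2 : par (w (al L)) = par (w (al L')) := (Prod.ext_iff.1 (Prod.ext_iff.1 hΦ).2).2
    obtain ⟨v, hv⟩ := hpar _ _ e2
    have e3 := hw _ _ e1
    rw [hv] at e3
    push_cast at e3
    have e4 : al L' = (v : 𝓞 M) ^ 2 * al L := by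
      have hwu : ((w (al L) : (𝓞 M)ˣ) : 𝓞 M) ≠ 0 := Units.ne_zero _
      apply mul_right_cancel₀ hwu
      rw [e3]
      ring
    have e5 : (sq L') ^ 2 = (algebraMap M E ((v : 𝓞 M) : M) * sq L) ^ 2 := by
      rw [mul_pow, hs, hs', e4, ← map_pow, ← map_mul]
      push_cast
      rfl
    have hv0 : ((v : 𝓞 M) : M) ≠ 0 := by
      have : (v : 𝓞 M) ≠ 0 := Units.ne_zero v
      exact fun h => this (RingOfIntegers.ext h)
    have hsub : ∀ (x : M) (y z : E), x ≠ 0 → y = algebraMap M E x * z →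
        IntermediateField.adjoin M {y} = IntermediateField.adjoin M {z} := by
      intro x y z hx hy
      apply le_antisymm
      · rw [IntermediateField.adjoin_simple_le_iff, hy]
        exact mul_mem (IntermediateField.algebraMap_mem _ x)
          (IntermediateField.mem_adjoin_simple_self M z)
      · rw [IntermediateField.adjoin_simple_le_iff]
        have : z = algebraMap M E x⁻¹ * y := by
          rw [hy, ← mul_assoc, ← map_mul, inv_mul_cancel₀ hx, map_one, one_mul]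
        rw [this]
        exact mul_mem (IntermediateField.algebraMap_mem _ _)
          (IntermediateField.mem_adjoin_simple_self M y)
    rw [hLs, hLs']
    rcases sq_eq_sq_iff_eq_or_eq_neg.1 e5 with h | h
    · exact (hsub _ _ _ hv0 h).symm
    · refine (hsub (-((v : 𝓞 M) : M)) _ _ (neg_ne_zero.2 hv0) ?_).symm
      rw [h, map_neg, neg_mul]
  have hfin : (QR M N E Y).Finite := by
    refine Set.Finite.of_finite_image (f := Φ) (T.finite_toSet.subset ?_) hinjΦ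
    rintro _ ⟨L, hL, rfl⟩
    exact hmaps L hL
  refine ⟨hfin, ?_⟩
  have hcard : (QR M N E Y).ncard ≤ T.card := by
    rw [← Set.ncard_coe_finset]
    exact Set.ncard_le_ncard_of_injOn Φ hmaps hinjΦ T.finite_toSet
  have hT : (T.card : ℝ) ≤ (Fintype.card (ClassGroup (𝓞 M)) : ℝ) * (RS.card : ℝ) *
      ((CP * d ^ (ε / 2) * (4 ^ D * Y)) * 2 ^ D) := by
    have e1 : (T.card : ℝ) ≤
        ∑ x ∈ (Finset.univ : Finset (ClassGroup (𝓞 M))) ×ˢ RS, ((P x.1 x.2).ncard : ℝ) * 2 ^ D := by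
      have e2 : T.card ≤
          ∑ x ∈ (Finset.univ : Finset (ClassGroup (𝓞 M))) ×ˢ RS, (P x.1 x.2).ncard * 2 ^ D := by
        refine Finset.card_biUnion_le.trans (Finset.sum_le_sum fun x _ => ?_)
        rw [Finset.card_product, Finset.card_singleton, one_mul, Finset.card_product,
          Set.ncard_eq_toFinset_card _ (hPfin x), Finset.card_univ]
        apply Nat.mul_le_mul_left
        have := card_par M
        rwa [hD] at this
      exact_mod_cast e2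
    refine e1.trans ((Finset.sum_le_sum fun x hx =>
      mul_le_mul_of_nonneg_right (hPcard x ?_) (by positivity)).trans ?_)
    · have h5 := (hRfin.mem_toFinset.1 (Finset.mem_product.1 hx).2).1
      exact h5.ne_zero
    rw [Finset.sum_const, Finset.card_product, Finset.card_univ, nsmul_eq_mul, Nat.cast_mul]
  calc ((QR M N E Y).ncard : ℝ) ≤ (T.card : ℝ) := by exact_mod_cast hcard
    _ ≤ _ := hT
    _ ≤ (CI * (2 ^ D * δ) ^ (1 + ε)) * (CR * ((|discr N| : ℤ) : ℝ) ^ ε) *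
      ((CP * d ^ (ε / 2) * (4 ^ D * Y)) * 2 ^ D) :=
        mul_le_mul_of_nonneg_right (mul_le_mul hcl hRS (Nat.cast_nonneg _) (by positivity))
          (by positivity)
    _ = _ := by
      have hδ0 : 0 ≤ δ := by linarith
      rw [Real.mul_rpow (by positivity) hδ0]
      have e6 : d ^ (1 / 2 + ε) = δ ^ (1 + ε) * d ^ (ε / 2) := by
        rw [hδ, ← Real.rpow_mul hd0, ← Real.rpow_add (by linarith)]
        congr 1
        ring
      rw [e6]
      ring

end Pool.Agent.H44.PT
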