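import Pool.Agent.H44.PT.Blk
import Pool.Agent.H44.PT.Sym
import Pool.Agent.H44.PT.Stm2

/-!
# The upper bound for `C₂ ^ (X / V) ⋊ X` on `X / W × {0, 1}`
-/

set_option autoImplicit false
set_option linter.unusedSectionVars false

open IntermediateField Filter Topology NumberField

namespace Pool.Agent.H44.PT

open Pool.Agent.TH444.ML (dsc dsc_eq one_le_dsc Gal Cnt nf_of_fd)
open Pool.Agent.NH85.ML (GalX HasG img TTX Upper Good galX_of_gal)
open Pool.Agent.W301.Lin (FS)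
open Pool.Agent.W5h46.MW

theorem ttx_subW (K : Type) [Field K] [NumberField K] {X : Type} [Group X] [Finite X]
    {V W : Subgroup X} {n : ℕ} {G : Subgroup (Equiv.Perm (Fin n))} (hG : IsC2W V W G) (Z : ℝ) :
    TTX K (AlgebraicClosure K) G Z ⊆ TTW K (AlgebraicClosure K) V W Z := by
  rintro L ⟨⟨h1, h2⟩, h3⟩
  have hfd : FiniteDimensional K L := h1
  refine ⟨?_, (hasGpW_iff K hG L).1 h2, h3⟩
  obtain ⟨e, he⟩ := h2
  rw [← c2w_n hG, ← Nat.card_fin n, ← Nat.card_congr e, Nat.card_eq_fintype_card, AlgHom.card]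

theorem sq_le_of_mid {K Ω X : Type} [Field K] [NumberField K] [Field Ω] [Algebra K Ω]
    [IsAlgClosure K Ω] [Group X] [Finite X] {V W : Subgroup X} (hyp : Hyp V W)
    {L P M : IntermediateField K Ω} (hL : Module.finrank K L = 2 * Nat.card (X ⧸ W))
    (h : MidW K Ω V W L P M) : dsc P ^ 2 ≤ dsc L := by
  obtain ⟨-, -, hP, -⟩ := basicW K Ω X V W hyp P M h.1
  have hpos : 0 < Nat.card (X ⧸ W) := Nat.card_pos
  have hfd : FiniteDimensional K L := FiniteDimensional.of_finrank_pos (by omega)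
  have hle : P ≤ L := by
    obtain ⟨F, -, -, h1⟩ := h.2.1
    rw [h1]
    exact le_sup_right
  exact rest.pow K Ω P L hle 2 (by rw [hL, hP])

/-- the upper bound -/
theorem upperW (K : Type) [Field K] [NumberField K] (X : Type) [Group X] [Finite X]
    (V W : Subgroup X) (hyp : Hyp V W) (A C : ℝ)
    (hcount : ∀ Z : ℝ, 1 ≤ Z →
      {p : IntermediateField K (AlgebraicClosure K) × IntermediateField K (AlgebraicClosure K) |
        p ∈ PW K (AlgebraicClosure K) V W ∧ dsc p.1 ≤ Z}.Finite ∧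
      ({p : IntermediateField K (AlgebraicClosure K) × IntermediateField K (AlgebraicClosure K) |
        p ∈ PW K (AlgebraicClosure K) V W ∧ dsc p.1 ≤ Z}.ncard : ℝ) ≤ C * Z ^ A)
    {n : ℕ} (G : Subgroup (Equiv.Perm (Fin n))) (hG : IsC2W V W G) (ε : ℝ) (hε : 0 < ε) :
    Upper K (AlgebraicClosure K) G
      (max (1 / (W.relIndex V : ℝ)) (A / 2 + 1 / (4 * (W.relIndex V : ℝ))) + ε) := by
  classical
  have R := rest
  have hr0 : (0 : ℝ) < W.relIndex V := by exact_mod_cast (relIndex_pos (V := V) (W := W))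
  obtain ⟨r, hr⟩ : ∃ r : ℝ, r = (W.relIndex V : ℝ) := ⟨_, rfl⟩
  obtain ⟨a, ha⟩ : ∃ a : ℝ, a = max A (3 / (2 * r)) := ⟨_, rfl⟩
  obtain ⟨s', hs'⟩ : ∃ s' : ℝ, s' = a + ε := ⟨_, rfl⟩
  obtain ⟨θ, hθ⟩ : ∃ θ : ℝ, θ = 3 / (2 * r) - ε := ⟨_, rfl⟩
  have hr0' : 0 < r := by rw [hr]; exact hr0
  have h3r : 0 < 3 / (2 * r) := by positivity
  have haA : A ≤ a := by rw [ha]; exact le_max_left _ _
  have har : 3 / (2 * r) ≤ a := by rw [ha]; exact le_max_right _ _
  have hss : 0 ≤ s' - θ := by rw [hs', hθ]; linarith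
  have hsum : Summable (fun p : PW K (AlgebraicClosure K) V W => (dsc p.1.1) ^ (-s')) := by
    refine Pool.Agent.NH85.ML.summable_of_count
      (fun p : PW K (AlgebraicClosure K) V W => dsc p.1.1) (fun p => dsc_ge_one p.1.1) C A s' ?_
      (by rw [hs']; linarith) (by rw [hs']; linarith)
    intro Z hZ
    obtain ⟨h1, h2⟩ := hcount Z hZ
    have himg : (Subtype.val '' {p : PW K (AlgebraicClosure K) V W | dsc p.1.1 ≤ Z}) =
        {p : IntermediateField K (AlgebraicClosure K) × IntermediateField K (AlgebraicClosure K) |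
          p ∈ PW K (AlgebraicClosure K) V W ∧ dsc p.1 ≤ Z} := by
      ext p
      constructor
      · rintro ⟨q, hq, rfl⟩
        exact ⟨q.2, hq⟩
      · rintro ⟨h3, h4⟩
        exact ⟨⟨p, h3⟩, h4, rfl⟩
    refine ⟨?_, ?_⟩
    · refine Set.Finite.of_finite_image ?_ (Subtype.val_injective.injOn)
      rw [himg]
      exact h1
    · rw [← Set.ncard_image_of_injective _ Subtype.val_injective, himg]
      exact h2
  obtain ⟨C₁, hC₁0, hC₁⟩ := boundSE unifRE R.pow basicW K (AlgebraicClosure K) X V W hyp 1 one_pos θ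
    (by rw [hθ, ← hr]; linarith)
  rw [← hr] at hC₁ ⊢
  have hnn : ∀ p : PW K (AlgebraicClosure K) V W, 0 ≤ (dsc p.1.1) ^ (-s') := fun p =>
    Real.rpow_nonneg (by have := dsc_ge_one p.1.1; linarith) _
  refine ⟨C₁ * ∑' p : PW K (AlgebraicClosure K) V W, (dsc p.1.1) ^ (-s'),
    mul_nonneg hC₁0 (tsum_nonneg hnn), ?_⟩
  intro Z hZ
  have hZ0 : 0 < Z := by linarith
  have hq1 : 1 ≤ √Z := Real.one_le_sqrt.2 hZ
  have hq0 : 0 < √Z := by linarith
  obtain ⟨hF, -⟩ := hcount (√Z) hq1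
  have hsubU : TTX K (AlgebraicClosure K) G Z ⊆
      ⋃ p ∈ hF.toFinset, SW V W p.1 p.2 Z := by
    intro L hL
    have h1 := ttx_subW K hG Z hL
    have h1' := h1
    rw [TTW_eq R.fwd R.bwd hyp, Set.mem_iUnion] at h1
    obtain ⟨p, hp⟩ := h1
    simp only [Set.mem_iUnion, Set.Finite.mem_toFinset, exists_prop]
    refine ⟨p.1, ⟨p.2, ?_⟩, hp⟩
    exact Real.le_sqrt_of_sq_le ((sq_le_of_mid hyp h1'.1 hp.1).trans hp.2)
  have hmem : ∀ p ∈ hF.toFinset, p ∈ PW K (AlgebraicClosure K) V W := by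
    intro p hp
    rw [Set.Finite.mem_toFinset] at hp
    exact hp.1
  have hM : ∀ p ∈ hF.toFinset, (SW V W p.1 p.2 Z).Finite ∧
      (Set.ncard (SW V W p.1 p.2 Z) : ℝ) ≤ C₁ * Z ^ (1 / r) * (dsc p.1) ^ (-θ) := by
    intro p hp
    have h1 := hC₁ p.1 p.2 (hmem p hp) Z hZ0
    rw [mul_one] at h1
    exact h1
  have hU : (Set.ncard (TTX K (AlgebraicClosure K) G Z) : ℝ) ≤
      ∑ p ∈ hF.toFinset.attach, (Set.ncard (SW V W p.1.1 p.1.2 Z) : ℝ) := by
    have h1 : Set.ncard (TTX K (AlgebraicClosure K) G Z) ≤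
        Set.ncard (⋃ p ∈ hF.toFinset, SW V W p.1 p.2 Z) := by
      refine Set.ncard_le_ncard hsubU ?_
      exact Set.Finite.biUnion hF.toFinset.finite_toSet (fun p hp => (hM p hp).1)
    have h2 : Set.ncard (⋃ p ∈ hF.toFinset, SW V W p.1 p.2 Z) ≤
        ∑ p ∈ hF.toFinset, Set.ncard (SW V W p.1 p.2 Z) :=
      Finset.set_ncard_biUnion_le _ _
    rw [Finset.sum_attach hF.toFinset (fun p => (Set.ncard (SW V W p.1 p.2 Z) : ℝ))]
    exact_mod_cast h1.trans h2
  refine hU.trans ?_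
  have h3 : ∑ p ∈ hF.toFinset.attach, (Set.ncard (SW V W p.1.1 p.1.2 Z) : ℝ) ≤
      ∑ p ∈ hF.toFinset.attach, C₁ * Z ^ (1 / r) * ((√Z) ^ (s' - θ) * (dsc p.1.1) ^ (-s')) := by
    refine Finset.sum_le_sum fun p _ => ?_
    refine (hM p.1 p.2).2.trans ?_
    refine mul_le_mul_of_nonneg_left ?_ (by positivity)
    have h7 : dsc p.1.1 ≤ √Z := by
      have := p.2
      rw [Set.Finite.mem_toFinset] at this
      exact this.2
    have h8 := dsc_ge_one p.1.1
    have h9 : 0 < dsc p.1.1 := by linarith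
    have e1 : (dsc p.1.1) ^ (-θ) = (dsc p.1.1) ^ (s' - θ) * (dsc p.1.1) ^ (-s') := by
      rw [← Real.rpow_add h9]
      congr 1
      ring
    rw [e1]
    exact mul_le_mul_of_nonneg_right (Real.rpow_le_rpow h9.le h7 hss)
      (Real.rpow_nonneg h9.le _)
  refine h3.trans ?_
  rw [← Finset.mul_sum, ← Finset.mul_sum]
  have h4 : ∑ p ∈ hF.toFinset.attach, (dsc p.1.1) ^ (-s') ≤
      ∑' p : PW K (AlgebraicClosure K) V W, (dsc p.1.1) ^ (-s') := by
    let j : {x // x ∈ hF.toFinset} → PW K (AlgebraicClosure K) V W := fun p => ⟨p.1, hmem p.1 p.2⟩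
    have hj : Function.Injective j := fun x y hxy =>
      Subtype.ext (congrArg (fun z : PW K (AlgebraicClosure K) V W => z.1) hxy)
    have h5 := hsum.sum_le_tsum (hF.toFinset.attach.map ⟨j, hj⟩) (fun p _ => hnn p)
    rw [Finset.sum_map] at h5
    exact h5
  have hexp : 1 / r + (s' - θ) / 2 = max (1 / r) (A / 2 + 1 / (4 * r)) + ε := by
    have e1 : max (1 / r) (A / 2 + 1 / (4 * r)) = a / 2 + 1 / (4 * r) := by
      have e2 : 3 / (2 * r) / 2 + 1 / (4 * r) = 1 / r := by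
        field_simp
        norm_num
      rw [ha]
      rcases le_total A (3 / (2 * r)) with h | h
      · rw [max_eq_right h, e2, max_eq_left]
        linarith
      · rw [max_eq_left h, max_eq_right]
        linarith
    have e3 : 1 / r = 3 / (2 * r) / 2 + 1 / (4 * r) := by
      field_simp
      norm_num
    rw [e1, hs', hθ]
    linarith
  have h6 : Z ^ (1 / r) * (√Z) ^ (s' - θ) =
      Z ^ (max (1 / r) (A / 2 + 1 / (4 * r)) + ε) := by
    rw [Real.sqrt_eq_rpow, ← Real.rpow_mul hZ0.le, ← Real.rpow_add hZ0, ← hexp]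
    congr 1
    ring
  have h7 : 0 ≤ C₁ * (Z ^ (1 / r) * (√Z) ^ (s' - θ)) := by positivity
  calc C₁ * Z ^ (1 / r) * ((√Z) ^ (s' - θ) * ∑ p ∈ hF.toFinset.attach, (dsc p.1.1) ^ (-s'))
      = C₁ * (Z ^ (1 / r) * (√Z) ^ (s' - θ)) * ∑ p ∈ hF.toFinset.attach, (dsc p.1.1) ^ (-s') := by
        ring
    _ ≤ C₁ * (Z ^ (1 / r) * (√Z) ^ (s' - θ)) *
        ∑' p : PW K (AlgebraicClosure K) V W, (dsc p.1.1) ^ (-s') :=
        mul_le_mul_of_nonneg_left h4 h7
    _ = _ := by rw [h6]; ring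

end Pool.Agent.H44.PT
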